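import Mathlib

/-!
A frequency lemma: if from every point of a forward invariant set `C` some initial stretch of the
orbit is in `G` for at least the proportion `c` of the time, then `G` fills at least the proportion
`c` of `C`.
-/

set_option autoImplicit false

open MeasureTheory Filter Topology Set

namespace Pool.Agent.Helper28K1.RF

/-- greedy covering by stretches of length at most `K` -/
lemma greedy {f : ℕ → ℝ} (hf : ∀ n, 0 ≤ f n) {c : ℝ} (hc : 0 ≤ c) {K : ℕ}
    (h : ∀ n, ∃ N, 1 ≤ N ∧ N ≤ K ∧ c * N ≤ ∑ m ∈ Finset.range N, f (n + m)) :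
    ∀ M n : ℕ, c * ((M : ℝ) - K) ≤ ∑ m ∈ Finset.range M, f (n + m) := by
  intro M
  induction M using Nat.strong_induction_on with
  | _ M ih =>
    intro n
    rcases Nat.lt_or_ge K M with hM | hM
    · obtain ⟨N, hN1, hN2, hN3⟩ := h n
      have h1 := ih (M - N) (by omega) (n + N)
      have h2 : M = N + (M - N) := by omega
      rw [h2, Finset.sum_range_add]
      have h3 : ((M - N : ℕ) : ℝ) = (M : ℝ) - N := by
        rw [Nat.cast_sub (by omega)]
      have h4 : ∑ m ∈ Finset.range (M - N), f (n + N + m) =
          ∑ m ∈ Finset.range (M - N), f (n + (N + m)) :=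
        Finset.sum_congr rfl fun m _ => by rw [add_assoc]
      rw [h4, h3] at h1
      push_cast
      rw [h3]
      nlinarith
    · have h1 : (M : ℝ) - K ≤ 0 := by
        have : (M : ℝ) ≤ K := by exact_mod_cast hM
        linarith
      exact (mul_nonpos_of_nonneg_of_nonpos hc h1).trans (Finset.sum_nonneg fun m _ => hf _)

variable {Ω : Type*} [MeasurableSpace Ω]

omit [MeasurableSpace Ω] in
/-- a lower bound for the number of visits -/
lemma card_le_visits (σ : Ω → Ω) (G : Set Ω) (ω : Ω) (N : ℕ) (S : Finset ℕ)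
    (hS : ∀ m ∈ S, m < N ∧ σ^[m] ω ∈ G) :
    (S.card : ℝ) ≤ ∑ m ∈ Finset.range N, G.indicator (fun _ => (1 : ℝ)) (σ^[m] ω) := by
  have h1 : (S.card : ℝ) = ∑ m ∈ S, G.indicator (fun _ => (1 : ℝ)) (σ^[m] ω) := by
    rw [Finset.sum_congr rfl fun m hm => indicator_of_mem (hS m hm).2 _]
    simp
  rw [h1]
  refine Finset.sum_le_sum_of_subset_of_nonneg (fun m hm => Finset.mem_range.2 (hS m hm).1) ?_
  intro m _ _
  exact indicator_nonneg (fun _ _ => zero_le_one) _

/-- **The frequency lemma.** -/
theorem freq {P : Measure Ω} [IsProbabilityMeasure P] {σ : Ω → Ω} (hσ : MeasurePreserving σ P P)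
    {C G : Set Ω} (hC : MeasurableSet C) (hG : MeasurableSet G) (hinv : ∀ ω ∈ C, σ ω ∈ C)
    {c : ℝ} (hc : 0 ≤ c) (hc1 : c ≤ 1)
    (h : ∀ ω ∈ C, ∃ N : ℕ, 1 ≤ N ∧
      c * N ≤ ∑ m ∈ Finset.range N, G.indicator (fun _ => (1 : ℝ)) (σ^[m] ω)) :
    c * P.real C ≤ P.real (C ∩ G) := by
  have hinvn : ∀ m : ℕ, ∀ ω ∈ C, σ^[m] ω ∈ C := by
    intro m
    induction m with
    | zero => intro ω hω; simpa using hω
    | succ m ih =>
      intro ω hω
      rw [Function.iterate_succ_apply]
      exact ih _ (hinv ω hω)
  set g : ℕ → Ω → ℝ := fun N ω => ∑ m ∈ Finset.range N, G.indicator (fun _ => (1 : ℝ)) (σ^[m] ω)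
    with hg
  have hgm : ∀ N, Measurable (g N) := fun N =>
    Finset.measurable_fun_sum _ fun m _ =>
      (measurable_const.indicator hG).comp (hσ.iterate m).measurable
  -- the points with a long first stretch
  set D : ℕ → Set Ω := fun K => C ∩ ⋂ N ∈ Finset.Icc 1 K, {ω | g N ω < c * N} with hD
  have hDm : ∀ K, MeasurableSet (D K) := fun K =>
    hC.inter (Finset.measurableSet_biInter _ fun N _ => measurableSet_lt (hgm N) measurable_const)
  have hDanti : Antitone D := by
    intro K K' hK
    refine inter_subset_inter_right _ ?_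
    refine biInter_subset_biInter_left ?_
    intro N hN
    have hN' : N ∈ Finset.Icc 1 K := hN
    rw [Finset.mem_Icc] at hN'
    show N ∈ Finset.Icc 1 K'
    rw [Finset.mem_Icc]
    exact ⟨hN'.1, hN'.2.trans hK⟩
  have hDempty : ⋂ K, D K = ∅ := by
    rw [eq_empty_iff_forall_notMem]
    intro ω hω
    rw [mem_iInter] at hω
    obtain ⟨N, hN1, hN2⟩ := h ω (hω 0).1
    have h1 := (hω N).2
    rw [mem_iInter₂] at h1
    have h2 := h1 N (Finset.mem_Icc.2 ⟨hN1, le_rfl⟩)
    exact absurd hN2 (not_le.2 h2)
  have hDlim : Tendsto (fun K => P.real (D K)) atTop (𝓝 0) := by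
    have h1 := tendsto_measure_iInter_atTop (μ := P) (fun K => (hDm K).nullMeasurableSet) hDanti
      ⟨0, measure_ne_top _ _⟩
    rw [hDempty, measure_empty] at h1
    have h2 := (ENNReal.tendsto_toReal ENNReal.zero_ne_top).comp h1
    exact h2
  -- the main inequality
  have key : ∀ K : ℕ, 1 ≤ K → c * P.real C ≤ P.real (C ∩ G) + P.real (D K) := by
    intro K hK
    have hM : ∀ M : ℕ, c * ((M : ℝ) - K) * P.real C ≤ M * (P.real (C ∩ G) + P.real (D K)) := by
      intro M
      set F : Ω → ℝ := fun ω => ∑ m ∈ Finset.range M,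
        (G.indicator (fun _ => (1 : ℝ)) (σ^[m] ω) + (D K).indicator (fun _ => (1 : ℝ)) (σ^[m] ω))
        with hF
      have hpt : ∀ ω ∈ C, c * ((M : ℝ) - K) ≤ F ω := by
        intro ω hω
        have h1 := greedy (f := fun n => G.indicator (fun _ => (1 : ℝ)) (σ^[n] ω) +
          (D K).indicator (fun _ => (1 : ℝ)) (σ^[n] ω)) (fun n => add_nonneg
            (indicator_nonneg (fun _ _ => zero_le_one) _)
            (indicator_nonneg (fun _ _ => zero_le_one) _)) hc (K := K) ?_ M 0
        · simpa using h1
        · intro n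
          by_cases hn : σ^[n] ω ∈ D K
          · refine ⟨1, le_rfl, hK, ?_⟩
            rw [Finset.sum_range_one, add_zero, indicator_of_mem hn]
            have : (0 : ℝ) ≤ G.indicator (fun _ => (1 : ℝ)) (σ^[n] ω) :=
              indicator_nonneg (fun _ _ => zero_le_one) _
            push_cast
            linarith
          · have h2 : ∃ N ∈ Finset.Icc 1 K, c * N ≤ g N (σ^[n] ω) := by
              by_contra hcon
              push Not at hcon
              refine hn ⟨hinvn n ω hω, ?_⟩
              rw [mem_iInter₂]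
              intro N hN
              exact hcon N hN
            obtain ⟨N, hN, hN2⟩ := h2
            rw [Finset.mem_Icc] at hN
            refine ⟨N, hN.1, hN.2, hN2.trans ?_⟩
            refine Finset.sum_le_sum fun m _ => ?_
            rw [← Function.iterate_add_apply, add_comm m n]
            have : (0 : ℝ) ≤ (D K).indicator (fun _ => (1 : ℝ)) (σ^[n + m] ω) :=
              indicator_nonneg (fun _ _ => zero_le_one) _
            linarith
      have hind : ∀ (S : Set Ω), MeasurableSet S → ∀ m : ℕ,
          Integrable (fun ω => S.indicator (fun _ => (1 : ℝ)) (σ^[m] ω)) (P.restrict C) := by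
        intro S hS m
        refine (integrable_const (1 : ℝ)).mono'
          ((measurable_const.indicator hS).comp (hσ.iterate m).measurable).aestronglyMeasurable ?_
        refine Eventually.of_forall fun ω => ?_
        by_cases hω : σ^[m] ω ∈ S
        · simp [hω]
        · simp [hω]
      have hval : ∀ (S : Set Ω), MeasurableSet S → ∀ m : ℕ,
          ∫ ω in C, S.indicator (fun _ => (1 : ℝ)) (σ^[m] ω) ∂P ≤ P.real (C ∩ S) := by
        intro S hS m
        have h1 : (fun ω => S.indicator (fun _ => (1 : ℝ)) (σ^[m] ω)) =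
            (σ^[m] ⁻¹' S).indicator (fun _ => (1 : ℝ)) := by
          ext ω
          by_cases hω : σ^[m] ω ∈ S
          · rw [indicator_of_mem hω, indicator_of_mem (show ω ∈ σ^[m] ⁻¹' S from hω)]
          · rw [indicator_of_notMem hω, indicator_of_notMem (show ω ∉ σ^[m] ⁻¹' S from hω)]
        have hpm : MeasurableSet (σ^[m] ⁻¹' S) := (hσ.iterate m).measurable hS
        rw [h1, integral_indicator hpm]
        simp only [integral_const, MeasurableSet.univ, measureReal_restrict_apply, univ_inter,
          smul_eq_mul, mul_one]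
        rw [measureReal_restrict_apply hpm]
        have h2 : σ^[m] ⁻¹' S ∩ C ⊆ σ^[m] ⁻¹' (C ∩ S) := fun ω hω => ⟨hinvn m ω hω.2, hω.1⟩
        have h3 : P (σ^[m] ⁻¹' (C ∩ S)) = P (C ∩ S) :=
          (hσ.iterate m).measure_preimage (hC.inter hS).nullMeasurableSet
        rw [measureReal_def, measureReal_def, ← h3]
        exact ENNReal.toReal_mono (measure_ne_top _ _) (measure_mono h2)
      have hFi : Integrable F (P.restrict C) :=
        integrable_finsetSum _ fun m _ => (hind G hG m).add (hind (D K) (hDm K) m)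
      have h1 : ∫ ω in C, c * ((M : ℝ) - K) ∂P ≤ ∫ ω in C, F ω ∂P := by
        refine setIntegral_mono_on (integrable_const _) hFi hC hpt
      rw [setIntegral_const, smul_eq_mul, mul_comm] at h1
      refine h1.trans ?_
      have h5 : ∫ ω in C, F ω ∂P = ∑ m ∈ Finset.range M,
          ∫ ω in C, (G.indicator (fun _ => (1 : ℝ)) (σ^[m] ω) +
            (D K).indicator (fun _ => (1 : ℝ)) (σ^[m] ω)) ∂P :=
        integral_finsetSum _ fun m _ => (hind G hG m).add (hind (D K) (hDm K) m)
      rw [h5]
      calc ∑ m ∈ Finset.range M, ∫ ω in C, (G.indicator (fun _ => (1 : ℝ)) (σ^[m] ω) +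
            (D K).indicator (fun _ => (1 : ℝ)) (σ^[m] ω)) ∂P
          ≤ ∑ m ∈ Finset.range M, (P.real (C ∩ G) + P.real (D K)) := by
            refine Finset.sum_le_sum fun m _ => ?_
            rw [integral_add (hind G hG m) (hind (D K) (hDm K) m)]
            refine add_le_add (hval G hG m) ((hval (D K) (hDm K) m).trans ?_)
            rw [measureReal_def, measureReal_def]
            exact ENNReal.toReal_mono (measure_ne_top _ _) (measure_mono inter_subset_right)
        _ = M * (P.real (C ∩ G) + P.real (D K)) := by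
            rw [Finset.sum_const, Finset.card_range, nsmul_eq_mul]
    -- let `M` tend to infinity
    have hlim1 : Tendsto (fun M : ℕ => c * (1 - (K : ℝ) / M) * P.real C) atTop
        (𝓝 (c * (1 - 0) * P.real C)) :=
      (((tendsto_const_nhds.sub (tendsto_const_div_atTop_nhds_zero_nat _)).const_mul c).mul_const _)
    rw [sub_zero, mul_one] at hlim1
    refine le_of_tendsto hlim1 ?_
    filter_upwards [eventually_ge_atTop 1] with M hM1
    have hMR : (0 : ℝ) < M := by exact_mod_cast hM1
    have h2 := hM M
    have h3 : c * (1 - (K : ℝ) / M) * P.real C * M = c * ((M : ℝ) - K) * P.real C := by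
      field_simp
    have h4 : c * (1 - (K : ℝ) / M) * P.real C * M ≤ (P.real (C ∩ G) + P.real (D K)) * M := by
      rw [h3]; linarith
    exact le_of_mul_le_mul_right h4 hMR
  have hlim : Tendsto (fun K => P.real (C ∩ G) + P.real (D K)) atTop (𝓝 (P.real (C ∩ G) + 0)) :=
    tendsto_const_nhds.add hDlim
  rw [add_zero] at hlim
  refine ge_of_tendsto hlim ?_
  filter_upwards [eventually_ge_atTop 1] with K hK
  exact key K hK

end Pool.Agent.Helper28K1.RF
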