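import Mathlib
import Pool.Agent.H705R2.Rot

/-!
Almost every geometric progression with a real ratio visits every open set modulo one, and the
logarithmic exceptional set is null.
-/

set_option autoImplicit false

open MeasureTheory Filter Topology Set

namespace Pool.Agent.Helper28K1.RF

open Pool.Agent.H705R2

/-- means of characters along a geometric progression -/
lemma tendsto_char {α : ℝ} (hα : 1 < α) {A : Set ℝ} (hA : MeasurableSet A)
    {n : ℤ} (hn : n ≠ 0) :
    Tendsto (fun j : ℕ => ∫ y in A, (fourier n ((y * α ^ j : ℝ) : Circ) : ℂ)) atTop (𝓝 0) := by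
  have h := Real.tendsto_integral_exp_smul_cocompact (A.indicator fun _ : ℝ => (1 : ℂ))
  have hw : Tendsto (fun j : ℕ => -((n : ℝ) * α ^ j)) atTop (cocompact ℝ) := by
    have h1 : Tendsto (fun j : ℕ => α ^ j) atTop atTop := tendsto_pow_atTop_atTop_of_one_lt hα
    rcases lt_or_gt_of_ne hn with hn | hn
    · have hn' : (n : ℝ) < 0 := by exact_mod_cast hn
      refine Tendsto.mono_right ?_ atTop_le_cocompact
      have : Tendsto (fun j : ℕ => (-(n : ℝ)) * α ^ j) atTop atTop :=
        h1.const_mul_atTop (by linarith)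
      refine this.congr fun j => by ring
    · have hn' : (0 : ℝ) < n := by exact_mod_cast hn
      refine Tendsto.mono_right ?_ atBot_le_cocompact
      exact tendsto_neg_atTop_atBot.comp (h1.const_mul_atTop hn')
  refine (h.comp hw).congr fun j => ?_
  simp only [Function.comp_apply]
  rw [← integral_indicator hA]
  refine integral_congr_ae (Eventually.of_forall fun y => ?_)
  simp only
  by_cases hy : y ∈ A
  · rw [indicator_of_mem hy, indicator_of_mem hy, fourier_coe_apply, Circle.smul_def, smul_eq_mul, mul_one,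
      Real.fourierChar_apply]
    congr 1
    push_cast
    ring
  · rw [indicator_of_notMem hy, indicator_of_notMem hy, smul_zero]

/-- means of continuous functions along a geometric progression -/
lemma tendsto_cont {α : ℝ} (hα : 1 < α) {A : Set ℝ} (hA : MeasurableSet A)
    (hfin : volume A ≠ ⊤) (F : C(Circ, ℂ)) :
    Tendsto (fun j : ℕ => ∫ y in A, F ((y * α ^ j : ℝ) : Circ)) atTop
      (𝓝 ((volume.real A : ℂ) * ∫ t : Circ, F t)) := by
  have hfm : IsFiniteMeasure (volume.restrict A) := ⟨by
    rw [Measure.restrict_apply_univ]; exact lt_top_iff_ne_top.2 hfin⟩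
  have hcont : ∀ (G : C(Circ, ℂ)) (j : ℕ), Continuous fun y : ℝ => G ((y * α ^ j : ℝ) : Circ) :=
    fun G j => G.continuous.comp ((AddCircle.continuous_mk' 1).comp (by fun_prop))
  have hint : ∀ (G : C(Circ, ℂ)) (j : ℕ), Integrable (fun y : ℝ => G ((y * α ^ j : ℝ) : Circ))
      (volume.restrict A) := fun G j =>
    (integrable_const (‖G‖ : ℝ)).mono' (hcont G j).aestronglyMeasurable
      (Eventually.of_forall fun y => G.norm_coe_le_norm _)
  have hintc : ∀ G : C(Circ, ℂ), Integrable (fun t : Circ => G t) volume := fun G =>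
    G.continuous.integrable_of_hasCompactSupport (HasCompactSupport.of_compactSpace _)
  -- trigonometric polynomials
  have hspan : ∀ G ∈ Submodule.span ℂ (range (fourier (T := (1 : ℝ)))),
      Tendsto (fun j : ℕ => ∫ y in A, G ((y * α ^ j : ℝ) : Circ)) atTop
        (𝓝 ((volume.real A : ℂ) * ∫ t : Circ, G t)) := by
    intro G hG
    refine Submodule.span_induction (p := fun G _ => Tendsto (fun j : ℕ => ∫ y in A,
      G ((y * α ^ j : ℝ) : Circ)) atTop (𝓝 ((volume.real A : ℂ) * ∫ t : Circ, G t))) ?_ ?_ ?_ ?_ hG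
    · rintro _ ⟨n, rfl⟩
      by_cases hn : n = 0
      · subst hn
        simp only [fourier_zero, integral_const, measureReal_restrict_apply MeasurableSet.univ,
          univ_inter]
        refine tendsto_const_nhds.congr fun j => ?_
        simp [measureReal_def]
      · have h0 : ∫ t : Circ, (fourier n t : ℂ) = 0 := by
          exact integral_fourier_eq_zero hn
        rw [h0, mul_zero]
        exact tendsto_char hα hA hn
    · simp
    · intro G H _ _ hG hH
      have := hG.add hH
      refine (this.congr fun j => ?_).trans ?_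
      · simp only [ContinuousMap.add_apply]
        rw [integral_add (hint G j) (hint H j)]
      · simp only [ContinuousMap.add_apply]
        rw [integral_add (hintc G) (hintc H), mul_add]
    · intro a G _ hG
      have := hG.const_mul a
      refine (this.congr fun j => ?_).trans ?_
      · simp only [ContinuousMap.smul_apply, smul_eq_mul]
        rw [integral_const_mul]
      · simp only [ContinuousMap.smul_apply, smul_eq_mul]
        rw [integral_const_mul]
        exact le_of_eq (by ring_nf)
  rw [Metric.tendsto_atTop]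
  intro ε hε
  set V : ℝ := volume.real A with hV
  have hV0 : 0 ≤ V := measureReal_nonneg
  have hdense : F ∈ (Submodule.span ℂ (range (fourier (T := (1 : ℝ))))).topologicalClosure := by
    rw [span_fourier_closure_eq_top]; trivial
  have hdense' : F ∈ closure ((Submodule.span ℂ (range (fourier (T := (1 : ℝ)))) : Set C(Circ, ℂ))) :=
    hdense
  obtain ⟨G, hG, hd⟩ := Metric.mem_closure_iff.1 hdense' (ε / (4 * (V + 1))) (by positivity)
  obtain ⟨j₀, hj₀⟩ := (Metric.tendsto_atTop.1 (hspan G hG)) (ε / 4) (by positivity)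
  have hpt : ∀ t : Circ, ‖F t - G t‖ ≤ ε / (4 * (V + 1)) := by
    intro t
    have h1 := (F - G).norm_coe_le_norm t
    rw [dist_eq_norm] at hd
    exact h1.trans hd.le
  refine ⟨j₀, fun j hj => ?_⟩
  have h1 := hj₀ j hj
  have h2 : ‖(∫ y in A, F ((y * α ^ j : ℝ) : Circ)) - ∫ y in A, G ((y * α ^ j : ℝ) : Circ)‖ ≤
      ε / (4 * (V + 1)) * V := by
    rw [← integral_sub (hint F j) (hint G j)]
    have := norm_integral_le_of_norm_le_const (μ := volume.restrict A)
      (f := fun y : ℝ => F ((y * α ^ j : ℝ) : Circ) - G ((y * α ^ j : ℝ) : Circ))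
      (C := ε / (4 * (V + 1))) (Eventually.of_forall fun y => hpt _)
    rwa [measureReal_restrict_apply MeasurableSet.univ, univ_inter] at this
  have h3 : ‖(∫ t : Circ, F t) - ∫ t : Circ, G t‖ ≤ ε / (4 * (V + 1)) := by
    rw [← integral_sub (hintc F) (hintc G)]
    have := norm_integral_le_of_norm_le_const (μ := (volume : Measure Circ))
      (f := fun t : Circ => F t - G t)
      (C := ε / (4 * (V + 1))) (Eventually.of_forall fun y => hpt _)
    rwa [measureReal_def, UnitAddCircle.measure_univ, ENNReal.toReal_one, mul_one] at this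
  have h4 : ε / (4 * (V + 1)) * V ≤ ε / 4 := by
    rw [div_mul_eq_mul_div, div_le_div_iff₀ (by positivity) (by norm_num)]
    nlinarith
  have h5 : ‖(V : ℂ) * (∫ t : Circ, G t) - (V : ℂ) * ∫ t : Circ, F t‖ ≤ ε / 4 := by
    rw [← mul_sub, norm_mul, Complex.norm_real, Real.norm_of_nonneg hV0, norm_sub_rev]
    calc V * ‖(∫ t : Circ, F t) - ∫ t : Circ, G t‖ ≤ V * (ε / (4 * (V + 1))) :=
          mul_le_mul_of_nonneg_left h3 hV0
      _ ≤ ε / 4 := by rw [mul_comm]; exact h4
  rw [dist_eq_norm] at h1 ⊢
  calc ‖(∫ y in A, F ((y * α ^ j : ℝ) : Circ)) - (V : ℂ) * ∫ t : Circ, F t‖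
      = ‖((∫ y in A, F ((y * α ^ j : ℝ) : Circ)) - ∫ y in A, G ((y * α ^ j : ℝ) : Circ)) +
          ((∫ y in A, G ((y * α ^ j : ℝ) : Circ)) - (V : ℂ) * ∫ t : Circ, G t) +
          ((V : ℂ) * (∫ t : Circ, G t) - (V : ℂ) * ∫ t : Circ, F t)‖ := by
        congr 1; ring
    _ ≤ ε / 4 + ε / 4 + ε / 4 := by
        refine (norm_add₃_le).trans ?_
        linarith [h2.trans h4]
    _ < ε := by linarith

/-- for almost all `y` some `y α ^ j` is in `J` modulo one -/
lemma null_avoid {α : ℝ} (hα : 1 < α) {J : Set Circ} (hJ : IsOpen J) (hJn : J.Nonempty) :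
    volume {y : ℝ | ∀ j : ℕ, ((y * α ^ j : ℝ) : Circ) ∉ J} = 0 := by
  set A : Set ℝ := {y : ℝ | ∀ j : ℕ, ((y * α ^ j : ℝ) : Circ) ∉ J} with hA
  have hAc : IsClosed A := by
    simp only [hA, ofPred_forall]
    exact isClosed_iInter fun j => hJ.isClosed_compl.preimage
      ((AddCircle.continuous_mk' 1).comp (by fun_prop))
  obtain ⟨x, hx⟩ := hJn
  -- a continuous bump
  obtain ⟨g, hg0, hg1, hg01⟩ := exists_continuous_zero_one_of_isClosed hJ.isClosed_compl
    (isClosed_singleton (x := x)) (by
      rw [disjoint_compl_left_iff_subset]; simpa using hx)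
  have hgpos : 0 < ∫ t : Circ, g t := by
    refine (integral_pos_iff_support_of_nonneg (fun t => (hg01 t).1)
      (g.continuous.integrable_of_hasCompactSupport (HasCompactSupport.of_compactSpace _))).2 ?_
    have hopen : IsOpen (Function.support g) := isOpen_ne_fun g.continuous continuous_const
    refine hopen.measure_pos volume ⟨x, ?_⟩
    rw [Function.mem_support]
    have : g x = 1 := hg1 (mem_singleton x)
    rw [this]; norm_num
  let h : C(Circ, ℂ) := ⟨fun t => (g t : ℂ), by fun_prop⟩
  have hbdd : ∀ n : ℕ, volume (A ∩ Icc (-(n : ℝ)) n) = 0 := by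
    intro n
    by_contra hne
    have hm : MeasurableSet (A ∩ Icc (-(n : ℝ)) n) := hAc.measurableSet.inter measurableSet_Icc
    have hfin : volume (A ∩ Icc (-(n : ℝ)) n) ≠ ⊤ :=
      ne_top_of_le_ne_top (by simp [Real.volume_Icc]) (measure_mono inter_subset_right)
    have h1 := tendsto_cont hα hm hfin h
    have h2 : ∀ j : ℕ, ∫ y in A ∩ Icc (-(n : ℝ)) n, h ((y * α ^ j : ℝ) : Circ) = 0 := by
      intro j
      refine setIntegral_eq_zero_of_forall_eq_zero fun y hy => ?_
      have : g ((y * α ^ j : ℝ) : Circ) = 0 := hg0 (hy.1 j)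
      simp only [h, ContinuousMap.coe_mk, this, Complex.ofReal_zero]
    have h3 : (((volume.real (A ∩ Icc (-(n : ℝ)) n) : ℝ) : ℂ) * ∫ t : Circ, h t) = 0 := by
      refine tendsto_nhds_unique h1 ?_
      simp only [h2]
      exact tendsto_const_nhds
    have h4 : ∫ t : Circ, h t = ((∫ t : Circ, g t : ℝ) : ℂ) := by
      simp only [h, ContinuousMap.coe_mk]
      exact integral_ofReal
    rw [h4, mul_eq_zero] at h3
    rcases h3 with h3 | h3
    · have h5 : volume.real (A ∩ Icc (-(n : ℝ)) n) = 0 := by exact_mod_cast h3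
      rw [measureReal_eq_zero_iff hfin] at h5
      exact hne h5
    · have h5 : (∫ t : Circ, g t) = 0 := by exact_mod_cast h3
      exact hgpos.ne' h5
  have hcover : A ⊆ ⋃ n : ℕ, A ∩ Icc (-(n : ℝ)) n := by
    intro y hy
    obtain ⟨n, hn⟩ := exists_nat_ge |y|
    rw [mem_iUnion]
    exact ⟨n, hy, by rw [abs_le] at hn; exact hn⟩
  exact measure_mono_null hcover (measure_iUnion_null hbdd)

/-- the exceptional set in the logarithmic coordinate, real ratio -/
def NsetR (α : ℝ) (R : ℝ) (J : Set Circ) : Set ℝ :=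
  {s | ∀ j : ℤ, ((R * α ^ (s + (j : ℝ)) : ℝ) : Circ) ∉ J}

lemma isClosed_NsetR {α : ℝ} (hα : 1 < α) (R : ℝ) {J : Set Circ} (hJ : IsOpen J) :
    IsClosed (NsetR α R J) := by
  unfold NsetR
  simp only [ofPred_forall]
  refine isClosed_iInter fun j => hJ.isClosed_compl.preimage ?_
  have hb0 : α ≠ 0 := by positivity
  refine (AddCircle.continuous_mk' 1).comp ?_
  refine continuous_const.mul ?_
  exact (Real.continuous_const_rpow hb0).comp (by fun_prop)

lemma volume_NsetR {α : ℝ} (hα : 1 < α) {R : ℝ} (hR : R ≠ 0) {J : Set Circ} (hJ : IsOpen J)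
    (hJn : J.Nonempty) : volume (NsetR α R J) = 0 := by
  have hb0 : (0 : ℝ) < α := by linarith
  set A : Set ℝ := {y : ℝ | ∀ j : ℕ, ((y * α ^ j : ℝ) : Circ) ∉ J} with hA
  have hA0 : volume A = 0 := null_avoid hα hJ hJn
  have hsub : NsetR α R J ⊆ (fun y : ℝ => Real.logb α (y / R)) '' (A ∩ {y | 0 < y / R}) := by
    intro s hs
    refine ⟨R * α ^ s, ⟨?_, ?_⟩, ?_⟩
    · intro j
      have := hs j
      have h2 : ((R * α ^ s * α ^ j : ℝ) : Circ) = ((R * α ^ (s + ((j : ℤ) : ℝ)) : ℝ) : Circ) := by
        congr 1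
        rw [Real.rpow_add hb0]
        push_cast
        rw [Real.rpow_natCast]; ring
      rw [h2]; exact this
    · simp only [mem_ofPred_eq]
      rw [mul_div_assoc, mul_comm, div_mul_cancel₀ _ hR]
      positivity
    · simp only
      rw [mul_div_assoc, mul_comm, div_mul_cancel₀ _ hR]
      exact Real.logb_rpow hb0 hα.ne'
  refine measure_mono_null hsub ?_
  refine MeasureTheory.addHaar_image_eq_zero_of_differentiableOn_of_addHaar_eq_zero volume ?_
    (measure_mono_null inter_subset_left hA0)
  intro y hy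
  have hy' : 0 < y / R := hy.2
  refine DifferentiableAt.differentiableWithinAt ?_
  unfold Real.logb
  refine DifferentiableAt.div_const ?_ _
  refine DifferentiableAt.log ?_ hy'.ne'
  exact differentiableAt_id.div_const _

/-- **Lemma A for real ratios.** -/
theorem lemmaAR {α c : ℝ} (hα : 1 < α) (hc : 0 < c)
    (hord : addOrderOf ((Real.logb α c : ℝ) : Circ) = 0) {R : ℝ} (hR : R ≠ 0)
    {J : Set Circ} (hJ : IsOpen J) (hJn : J.Nonempty) :
    DensityZero {m : ℕ | ∀ j : ℤ, ((R * c ^ m * α ^ j : ℝ) : Circ) ∉ J} := by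
  have hb0 : (0 : ℝ) < α := by linarith
  set π : ℝ → Circ := fun x => (x : Circ) with hπ
  set N := NsetR α R J with hN
  have hNc : IsClosed N := isClosed_NsetR hα R hJ
  have hper : ∀ s : ℝ, ∀ n : ℤ, s ∈ N → s + n ∈ N := by
    intro s n hs j
    have := hs (n + j)
    push_cast at this
    rwa [← add_assoc] at this
  have hpre : π ⁻¹' (π '' N) = N := by
    apply Subset.antisymm
    · rintro s ⟨s', hs', hss⟩
      simp only [hπ] at hss
      have h0 : ((s - s' : ℝ) : Circ) = 0 := by
        rw [AddCircle.coe_sub, hss, sub_self]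
      rw [AddCircle.coe_eq_zero_iff] at h0
      obtain ⟨n, hn⟩ := h0
      simp only [zsmul_eq_mul, mul_one] at hn
      have : s = s' + n := by linarith
      rw [this]; exact hper s' n hs'
    · exact subset_preimage_image π N
  have hclosed : IsClosed (π '' N) := by
    have hq : IsQuotientMap π :=
      QuotientAddGroup.isQuotientMap_mk (N := AddSubgroup.zmultiples (1 : ℝ))
    rw [← hq.isClosed_preimage, hpre]; exact hNc
  have hvol : volume (π '' N) = 0 := by
    have hp := UnitAddCircle.measurePreserving_mk (0 : ℝ)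
    have := hp.measure_preimage hclosed.measurableSet.nullMeasurableSet
    rw [← this]
    refine measure_mono_null (t := N) ?_ ?_ |>.trans ?_ <;> try rfl
    · intro s hs
      have : s ∈ π ⁻¹' (π '' N) := hs
      rwa [hpre] at this
    · exact le_antisymm ((Measure.restrict_apply_le _ _).trans (volume_NsetR hα hR hJ hJn).le) bot_le
  have hd := density_zero_of_closed_null hord 0 hclosed hvol
  refine hd.mono ?_
  intro m hm
  simp only [mem_ofPred_eq] at hm ⊢
  rw [zero_add, ← AddCircle.coe_nsmul, nsmul_eq_mul]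
  refine ⟨(m : ℝ) * Real.logb α c, ?_, rfl⟩
  intro j
  have h1 := hm j
  have h2 : R * α ^ ((m : ℝ) * Real.logb α c + (j : ℝ)) = R * c ^ m * α ^ j := by
    rw [Real.rpow_add hb0, mul_comm (m : ℝ), Real.rpow_mul hb0.le, Real.rpow_logb hb0 hα.ne' hc,
      Real.rpow_natCast, Real.rpow_intCast]
    ring
  rw [h2]; exact h1

end Pool.Agent.Helper28K1.RF
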