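import Mathlib
import Pool.Agent.Helper28K1.RF.Kok
import Pool.Agent.Helper28K1.RF.Freq
import Pool.Agent.W765.Sta4

/-!
Random closed sets which are moved by `×p` and by `×q` to the same random closed set: the case of an
accumulation point at `0`.
-/

set_option autoImplicit false

open MeasureTheory Filter Topology Set

namespace Pool.Agent.Helper28K1.RF

open Pool.Agent.H705R2 Pool.Agent.W765.Sta

/-- `A` contains the terms `R α ^ j`, `|j| ≤ K`, of a geometric progression modulo one -/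
def Prog (α : ℝ) (K : ℕ) (A : Set Circ) : Prop :=
  ∃ R : ℝ, 1 ≤ |R| ∧ |R| ≤ α ∧ ∀ j : ℤ, |j| ≤ K → ((R * α ^ j : ℝ) : Circ) ∈ A

lemma Prog.mono {α : ℝ} {K K' : ℕ} (hK : K ≤ K') {A : Set Circ} (h : Prog α K' A) : Prog α K A := by
  obtain ⟨R, h1, h2, h3⟩ := h
  exact ⟨R, h1, h2, fun j hj => h3 j (hj.trans (by exact_mod_cast hK))⟩

/-- compactness -/
lemma prog_all {α : ℝ} {A : Set Circ} (hA : IsClosed A) (h : ∀ K, Prog α K A) :
    ∃ R : ℝ, R ≠ 0 ∧ ∀ j : ℤ, ((R * α ^ j : ℝ) : Circ) ∈ A := by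
  choose R h1 h2 h3 using h
  have hcomp : ∀ n, R n ∈ Icc (-α) α := fun n => by
    have := h2 n
    rw [abs_le] at this
    exact this
  obtain ⟨S, -, φ, hφ, hlim⟩ := isCompact_Icc.tendsto_subseq hcomp
  refine ⟨S, ?_, fun j => ?_⟩
  · have h4 : Tendsto (fun n => |R (φ n)|) atTop (𝓝 |S|) := hlim.abs
    have h5 : 1 ≤ |S| := ge_of_tendsto' h4 (fun n => h1 (φ n))
    intro h0
    rw [h0, abs_zero] at h5
    linarith
  · have h4 : Tendsto (fun n => ((R (φ n) * α ^ j : ℝ) : Circ)) atTop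
        (𝓝 ((S * α ^ j : ℝ) : Circ)) :=
      ((AddCircle.continuous_mk' (1 : ℝ)).tendsto _).comp (hlim.mul_const _)
    refine hA.mem_of_tendsto h4 ?_
    filter_upwards [eventually_ge_atTop j.natAbs] with n hn
    refine h3 (φ n) j ?_
    have h6 : j.natAbs ≤ φ n := hn.trans (hφ.id_le n)
    rw [Int.abs_eq_natAbs]
    exact_mod_cast h6

lemma theta_orderR {p q : ℕ} (hq : 2 ≤ q) (hqp : q < p) (h : MulIndep p q) :
    addOrderOf ((Real.logb ((p : ℝ) / q) q : ℝ) : Circ) = 0 := by
  rw [addOrderOf_eq_zero_iff, isOfFinAddOrder_iff_nsmul_eq_zero]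
  rintro ⟨n, hn, hn0⟩
  rw [← AddCircle.coe_nsmul, AddCircle.coe_eq_zero_iff] at hn0
  obtain ⟨k, hk⟩ := hn0
  simp only [zsmul_eq_mul, mul_one, nsmul_eq_mul] at hk
  have hq1 : (1 : ℝ) < q := by exact_mod_cast (by omega : 1 < q)
  have hqp' : (q : ℝ) < p := by exact_mod_cast hqp
  have hα : 1 < (p : ℝ) / q := by rw [lt_div_iff₀ (by linarith)]; linarith
  have hp0 : (0 : ℝ) < p := by linarith
  have hpos : 0 < Real.logb ((p : ℝ) / q) q := Real.logb_pos hα hq1
  have hkpos : (0 : ℝ) ≤ k := by rw [hk]; positivity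
  have hk0 : 0 ≤ k := by exact_mod_cast hkpos
  obtain ⟨l, rfl⟩ := Int.eq_ofNat_of_zero_le hk0
  have h1 : ((p : ℝ) / q) ^ l = (q : ℝ) ^ n := by
    have h2 : Real.logb ((p : ℝ) / q) (((p : ℝ) / q) ^ l) = Real.logb ((p : ℝ) / q) ((q : ℝ) ^ n) := by
      rw [Real.logb_pow, Real.logb_pow, Real.logb_self_eq_one hα, mul_one]
      exact_mod_cast hk
    exact Real.logb_injOn_pos hα (by simp; positivity) (by simp; positivity) h2
  have h3 : (p : ℝ) ^ l = (q : ℝ) ^ (n + l) := by
    rw [div_pow, div_eq_iff (by positivity)] at h1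
    rw [h1, pow_add]
  have h4 : p ^ l = q ^ (n + l) := by exact_mod_cast h3
  have := (h l (n + l) h4).2
  omega

/-- mixed products -/
lemma mem_mix {p q : ℕ} {S : ℕ → Set Circ} (hp : ∀ m, ∀ x ∈ S m, p • x ∈ S (m + 1))
    (hq : ∀ m, ∀ x ∈ S m, q • x ∈ S (m + 1)) (i j : ℕ) :
    ∀ m, ∀ x ∈ S m, (p ^ i * q ^ j) • x ∈ S (m + (i + j)) := by
  induction i with
  | zero =>
    induction j with
    | zero => intro m x hx; simpa using hx
    | succ j ih =>
      intro m x hx
      have := hq _ _ (ih m x hx)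
      rw [smul_smul] at this
      have e1 : p ^ 0 * q ^ (j + 1) = q * (p ^ 0 * q ^ j) := by ring
      have e2 : m + (0 + (j + 1)) = m + (0 + j) + 1 := by ring
      rw [e1, e2]
      exact this
  | succ i ih =>
    intro m x hx
    have := hp _ _ (ih m x hx)
    rw [smul_smul] at this
    have e1 : p ^ (i + 1) * q ^ j = p * (p ^ i * q ^ j) := by ring
    have e2 : m + (i + 1 + j) = m + (i + j) + 1 := by ring
    rw [e1, e2]
    exact this

/-- the proportion of the good times -/
noncomputable def c0 (p q : ℕ) : ℝ := (1 - Real.log q / Real.log p) / 2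

lemma c0_pos {p q : ℕ} (hq : 2 ≤ q) (hqp : q < p) : 0 < c0 p q := by
  have hq1 : (1 : ℝ) < q := by exact_mod_cast (by omega : 1 < q)
  have hqp' : (q : ℝ) < p := by exact_mod_cast hqp
  have hlp : 0 < Real.log p := Real.log_pos (by linarith)
  have h1 : Real.log q < Real.log p := Real.log_lt_log (by linarith) hqp'
  have h2 : Real.log q / Real.log p < 1 := by rw [div_lt_one hlp]; exact h1
  unfold c0
  linarith

lemma c0_le {p q : ℕ} (hq : 2 ≤ q) (hqp : q < p) : c0 p q ≤ 1 := by
  have hq1 : (1 : ℝ) < q := by exact_mod_cast (by omega : 1 < q)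
  have hqp' : (q : ℝ) < p := by exact_mod_cast hqp
  have hlq : 0 < Real.log q := Real.log_pos hq1
  have hlp : 0 < Real.log p := Real.log_pos (by linarith)
  have : 0 < Real.log q / Real.log p := by positivity
  unfold c0
  linarith

/-- a small point produces long geometric progressions for a positive proportion of the times -/
lemma visits {p q : ℕ} (hq2 : 2 ≤ q) (hqp : q < p) {S : ℕ → Set Circ}
    (hp : ∀ m, ∀ x ∈ S m, p • x ∈ S (m + 1)) (hq : ∀ m, ∀ x ∈ S m, q • x ∈ S (m + 1))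
    (hacc : Acc0 (S 0)) (K N0 : ℕ) : ∃ N : ℕ, 1 ≤ N ∧ N0 ≤ N ∧ ∃ T : Finset ℕ,
      (∀ m ∈ T, m < N ∧ Prog ((p : ℝ) / q) K (S m)) ∧ c0 p q * N ≤ T.card := by
  classical
  have hq1 : (1 : ℝ) < q := by exact_mod_cast (by omega : 1 < q)
  have hq0 : (0 : ℝ) < q := by linarith
  have hqp' : (q : ℝ) < p := by exact_mod_cast hqp
  have hp0 : (0 : ℝ) < p := by linarith
  set lq := Real.log q with hlqd
  set lp := Real.log p with hlpd
  have hlq : 0 < lq := Real.log_pos hq1
  have hlp : 0 < lp := Real.log_pos (by linarith)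
  have hlt : lq < lp := Real.log_lt_log hq0 hqp'
  set L := lp - lq with hL
  have hL0 : 0 < L := by linarith
  set α : ℝ := (p : ℝ) / q with hαd
  have hα1 : 1 < α := by rw [hαd, lt_div_iff₀ hq0]; linarith
  have hα0 : 0 < α := by linarith
  have hlα : Real.log α = L := Real.log_div hp0.ne' hq0.ne'
  set CK : ℝ := (2 * K + 1) * L / lp + 1 with hCK
  have hθ : 0 < 1 - lq / lp := by
    have : lq / lp < 1 := by rw [div_lt_one hlp]; exact hlt
    linarith
  -- a lower bound for the logarithmic size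
  set s0 : ℝ := K * L + lq * (N0 + 1 + 2 * CK / (1 - lq / lp)) with hs0
  obtain ⟨x, hxS, hx0, hxn⟩ := hacc (Real.exp (-s0)) (Real.exp_pos _)
  obtain ⟨r, hr, hrn, -⟩ := exists_rep x
  have hr0 : 0 < |r| := by rw [hrn]; exact norm_pos_iff.2 hx0
  set s : ℝ := - Real.log |r| with hs
  have hss : s0 ≤ s := by
    have h1 : |r| < Real.exp (-s0) := by rw [hrn]; exact hxn
    have h2 := Real.log_lt_log hr0 h1
    rw [Real.log_exp] at h2
    rw [hs]; linarith
  have hCK1 : 1 ≤ CK := by
    have : 0 ≤ (2 * (K : ℝ) + 1) * L / lp := by positivity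
    rw [hCK]; linarith
  have hu0 : 0 ≤ (s - K * L) / lq := by
    refine div_nonneg ?_ hlq.le
    have h1 : 0 ≤ lq * (N0 + 1 + 2 * CK / (1 - lq / lp)) := by positivity
    linarith
  set N : ℕ := ⌊(s - K * L) / lq⌋₊ + 1 with hN
  have hN1 : (s - K * L) / lq < N := by
    rw [hN]; push_cast; exact Nat.lt_floor_add_one _
  have hN2 : (N : ℝ) ≤ (s - K * L) / lq + 1 := by
    rw [hN]; push_cast; linarith [Nat.floor_le hu0]
  have hNbig : N0 + 1 + 2 * CK / (1 - lq / lp) ≤ (N : ℝ) := by
    refine le_trans ?_ hN1.le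
    rw [le_div_iff₀ hlq]
    rw [hs0] at hss
    linarith
  set T : Finset ℕ := (Finset.range N).filter fun m : ℕ => s + (K + 1) * L ≤ m * lp with hT
  refine ⟨N, by omega, ?_, T, ?_, ?_⟩
  · have h1 : (N0 : ℝ) ≤ N := by
      have : 0 ≤ 2 * CK / (1 - lq / lp) := by positivity
      linarith
    exact_mod_cast h1
  · intro m hm
    rw [hT, Finset.mem_filter, Finset.mem_range] at hm
    obtain ⟨hmN, hm1⟩ := hm
    refine ⟨hmN, ?_⟩
    -- `m lq ≤ s - K L`
    have hm2 : (m : ℝ) * lq ≤ s - K * L := by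
      have h1 : m ≤ ⌊(s - K * L) / lq⌋₊ := by omega
      have h2 : (m : ℝ) ≤ (s - K * L) / lq := (Nat.cast_le.2 h1).trans (Nat.floor_le hu0)
      rwa [le_div_iff₀ hlq] at h2
    set v : ℝ := (s - m * lq) / L with hv
    have hv1 : (K : ℝ) ≤ v := by rw [hv, le_div_iff₀ hL0]; linarith
    set i0 : ℕ := ⌈v⌉₊ with hi0
    have hi1 : v ≤ i0 := Nat.le_ceil v
    have hi2 : (i0 : ℝ) < v + 1 := Nat.ceil_lt_add_one (le_trans (Nat.cast_nonneg K) hv1)
    have hiK : K ≤ i0 := by exact_mod_cast hv1.trans hi1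
    have him : i0 + K ≤ m := by
      have h1 : v + 1 + K ≤ m := by
        have h2 : v ≤ m - (K + 1) := by
          rw [hv, div_le_iff₀ hL0]
          have h5 : ((m : ℝ) - (K + 1)) * L = m * L - (K + 1) * L := by ring
          have h6 : (m : ℝ) * L = m * lp - m * lq := by rw [hL]; ring
          linarith
        linarith
      have h3 : ((i0 + K : ℕ) : ℝ) < m + 1 := by push_cast; linarith
      have h4 : i0 + K < m + 1 := by exact_mod_cast h3
      omega
    set R : ℝ := r * q ^ m * α ^ i0 with hR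
    have hlogR : Real.log |R| = -s + m * lq + i0 * L := by
      rw [hR, abs_mul, abs_mul, abs_of_pos (pow_pos hq0 m), abs_of_pos (pow_pos hα0 i0),
        Real.log_mul (mul_ne_zero hr0.ne' (pow_pos hq0 m).ne') (pow_pos hα0 i0).ne',
        Real.log_mul hr0.ne' (pow_pos hq0 m).ne', Real.log_pow, Real.log_pow, hlα, hs]
      ring
    have hRpos : 0 < |R| := by
      rw [hR, abs_mul, abs_mul, abs_of_pos (pow_pos hq0 m), abs_of_pos (pow_pos hα0 i0)]
      positivity
    have hvL : v * L = s - m * lq := by rw [hv]; field_simp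
    have hvi : v * L ≤ i0 * L := mul_le_mul_of_nonneg_right hi1 hL0.le
    have hvi' : i0 * L ≤ (v + 1) * L := mul_le_mul_of_nonneg_right hi2.le hL0.le
    refine ⟨R, ?_, ?_, ?_⟩
    · have h1 : 0 ≤ Real.log |R| := by rw [hlogR]; linarith
      have := Real.exp_le_exp.2 h1
      rwa [Real.exp_zero, Real.exp_log hRpos] at this
    · have h1 : Real.log |R| ≤ Real.log α := by
        rw [hlogR, hlα]
        have : (v + 1) * L = v * L + L := by ring
        linarith
      exact (Real.log_le_log_iff hRpos hα0).1 h1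
    · intro j hj
      rw [abs_le] at hj
      obtain ⟨i, hi⟩ : ∃ i : ℕ, (i0 : ℤ) + j = i := by
        have : 0 ≤ (i0 : ℤ) + j := by omega
        exact ⟨_, (Int.toNat_of_nonneg this).symm⟩
      have hi' : i ≤ m := by omega
      have h1 := mem_mix hp hq i (m - i) 0 x hxS
      have e1 : 0 + (i + (m - i)) = m := by omega
      rw [e1] at h1
      have h2 : ((R * α ^ j : ℝ) : Circ) = (p ^ i * q ^ (m - i)) • x := by
        rw [← hr, ← AddCircle.coe_nsmul]
        congr 1
        rw [nsmul_eq_mul, hR, mul_assoc, ← zpow_natCast α i0, ← zpow_add₀ hα0.ne', hi, zpow_natCast,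
          hαd, div_pow]
        have h3 : (q : ℝ) ^ m = q ^ (m - i) * q ^ i := by
          rw [← pow_add]; congr 1; omega
        rw [h3]
        push_cast
        field_simp
      rw [h2]; exact h1
  · -- counting
    have hcompl : ((Finset.range N).filter fun m : ℕ => ¬ (s + (K + 1) * L ≤ m * lp)).card ≤
        (s + (K + 1) * L) / lp + 1 := by
      have h0 : 0 ≤ (s + (K + 1) * L) / lp := by
        refine div_nonneg ?_ hlp.le
        have : 0 ≤ s - K * L := by
          have := mul_nonneg hu0 hlq.le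
          rwa [div_mul_cancel₀ _ hlq.ne'] at this
        have h2 : 0 ≤ (2 * (K : ℝ) + 1) * L := by positivity
        linarith
      have h1 : ((Finset.range N).filter fun m : ℕ => ¬ (s + (K + 1) * L ≤ m * lp)) ⊆
          Finset.range (⌊(s + (K + 1) * L) / lp⌋₊ + 1) := by
        intro m hm
        rw [Finset.mem_filter, not_le] at hm
        rw [Finset.mem_range, Nat.lt_succ_iff]
        refine Nat.le_floor ?_
        rw [le_div_iff₀ hlp]
        exact hm.2.le
      have h2 := Finset.card_le_card h1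
      rw [Finset.card_range] at h2
      have h3 : (((Finset.range N).filter fun m : ℕ => ¬ (s + (K + 1) * L ≤ m * lp)).card : ℝ) ≤
          ((⌊(s + (K + 1) * L) / lp⌋₊ + 1 : ℕ) : ℝ) := by exact_mod_cast h2
      push_cast at h3
      linarith [Nat.floor_le h0]
    have hsum := Finset.card_filter_add_card_filter_not (s := Finset.range N)
      (fun m : ℕ => s + (K + 1) * L ≤ m * lp)
    rw [Finset.card_range] at hsum
    have hsum' : (T.card : ℝ) +
        (((Finset.range N).filter fun m : ℕ => ¬ (s + (K + 1) * L ≤ m * lp)).card : ℝ) = N := by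
      rw [hT]; exact_mod_cast hsum
    have h5 : (s + (K + 1) * L) / lp + 1 ≤ lq / lp * N + CK := by
      have h6 : s ≤ lq * N + K * L := by
        have := hN1.le
        rw [div_le_iff₀ hlq] at this
        linarith
      rw [hCK]
      have h7 : (s + (K + 1) * L) / lp ≤ (lq * N + K * L + (K + 1) * L) / lp :=
        div_le_div_of_nonneg_right (by linarith) hlp.le
      have h8 : (lq * N + K * L + (K + 1) * L) / lp = lq / lp * N + (2 * K + 1) * L / lp := by
        field_simp; ring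
      linarith
    have h9 : CK ≤ (1 - lq / lp) / 2 * N := by
      have h10 : 2 * CK / (1 - lq / lp) ≤ (N : ℝ) := by
        have : (0 : ℝ) ≤ N0 := Nat.cast_nonneg _
        linarith
      rw [div_le_iff₀ hθ] at h10
      linarith
    have h11 : c0 p q = (1 - lq / lp) / 2 := rfl
    rw [h11]
    nlinarith

variable {Ω : Type*} [MeasurableSpace Ω]

/-- measurability of the presence of progressions -/
lemma measurable_prog {A : Ω → Set Circ} (hA : ∀ ω, IsClosed (A ω)) (hm : Hit A) {α : ℝ}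
    (K : ℕ) : MeasurableSet {ω | Prog α K (A ω)} := by
  have hc : CompactSpace (Icc (-α) α) := isCompact_iff_compactSpace.1 isCompact_Icc
  have hE : IsClosed {R : Icc (-α) α | 1 ≤ |(R : ℝ)|} :=
    isClosed_le continuous_const (continuous_subtype_val.abs)
  have h := measurable_exists hA hm hE (ι := (Finset.Icc (-(K : ℤ)) K))
    (fun j R => (((R : ℝ) * α ^ (j : ℤ) : ℝ) : Circ)) (fun j =>
      (AddCircle.continuous_mk' 1).comp (continuous_subtype_val.mul continuous_const))
  have he : {ω | Prog α K (A ω)} = {ω | ∃ z ∈ {R : Icc (-α) α | 1 ≤ |(R : ℝ)|},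
      ∀ i : (Finset.Icc (-(K : ℤ)) K), (((z : ℝ) * α ^ (i : ℤ) : ℝ) : Circ) ∈ A ω} := by
    ext ω
    constructor
    · rintro ⟨R, h1, h2, h3⟩
      refine ⟨⟨R, abs_le.1 h2⟩, h1, fun i => h3 i ?_⟩
      have := Finset.mem_Icc.1 i.2
      exact abs_le.2 this
    · rintro ⟨R, h1, h2⟩
      refine ⟨R, h1, abs_le.2 R.2, fun j hj => h2 ⟨j, ?_⟩⟩
      exact Finset.mem_Icc.2 (abs_le.1 hj)
  rw [he]; exact h

/-- the event that the random set is everything -/
lemma measurable_univ' {F : Ω → Set Circ} (hF : ∀ ω, IsClosed (F ω)) (hm : Hit F) :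
    MeasurableSet {ω | F ω = univ} := by
  obtain ⟨b, hbc, hbe, hb⟩ := TopologicalSpace.exists_countable_basis Circ
  have : {ω | F ω = univ} = ⋂ V ∈ b, {ω | (F ω ∩ V).Nonempty} := by
    ext ω
    simp only [mem_ofPred_eq, mem_iInter]
    constructor
    · intro h1 V hV
      rw [h1, univ_inter]
      exact nonempty_iff_ne_empty.2 (fun h0 => hbe (h0 ▸ hV))
    · intro h1
      have hd : Dense (F ω) := by
        rw [hb.dense_iff]
        intro V hV _
        rw [inter_comm]; exact h1 V hV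
      rw [← (hF ω).closure_eq]; exact hd.closure_eq
  rw [this]
  exact MeasurableSet.biInter hbc fun V hV => hm V (hb.isOpen hV)

/-- the whole circle stays the whole circle -/
lemma univ_step {q : ℕ} (hq : 2 ≤ q) {F G : Set Circ} (h : ∀ x ∈ F, q • x ∈ G) (hF : F = univ) :
    G = univ := by
  refine eq_univ_of_forall fun y => ?_
  obtain ⟨z, hz⟩ : ∃ z : Circ, q • z = y := by
    obtain ⟨r, rfl⟩ := QuotientAddGroup.mk_surjective y
    refine ⟨((r / q : ℝ) : Circ), ?_⟩
    rw [← AddCircle.coe_nsmul, nsmul_eq_mul]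
    have : (q : ℝ) ≠ 0 := by positivity
    congr 1
    field_simp
  rw [← hz]
  exact h z (by rw [hF]; trivial)

/-- backwards along the orbit, almost surely -/
lemma univ_back {q : ℕ} (hq : 2 ≤ q) {P : Measure Ω} [IsProbabilityMeasure P] {σ : Ω → Ω}
    (hσ : MeasurePreserving σ P P) {F : Ω → Set Circ} (hF : ∀ ω, IsClosed (F ω)) (hm : Hit F)
    (hq' : ∀ ω, ∀ x ∈ F ω, q • x ∈ F (σ ω)) :
    ∀ᵐ ω ∂P, ∀ a : ℕ, F (σ^[a] ω) = univ → F ω = univ := by
  set T : Set Ω := {ω | F ω = univ} with hT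
  have hTm : MeasurableSet T := measurable_univ' hF hm
  have hTsub : T ⊆ σ ⁻¹' T := fun ω hω => univ_step hq (hq' ω) hω
  have hTback : ∀ᵐ ω ∂P, σ ω ∈ T → ω ∈ T := by
    have h1 : P (σ ⁻¹' T \ T) = 0 := by
      rw [measure_sdiff hTsub hTm.nullMeasurableSet (measure_ne_top P T),
        hσ.measure_preimage hTm.nullMeasurableSet, tsub_self]
    rw [ae_iff]
    refine measure_mono_null ?_ h1
    intro ω hω
    simp only [mem_ofPred_eq, Classical.not_imp] at hω
    exact hω
  rw [ae_all_iff]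
  intro a
  induction a with
  | zero => exact Eventually.of_forall fun ω hω => hω
  | succ a ih =>
    have h2 := (hσ.iterate a).quasiMeasurePreserving.ae hTback
    filter_upwards [ih, h2] with ω h3 h4 h5
    rw [Function.iterate_succ_apply'] at h5
    exact h3 (h4 h5)

/-- accumulation at `0` is inherited -/
lemma acc0_step {q : ℕ} (hq : 2 ≤ q) {A B : Set Circ} (h : ∀ x ∈ A, q • x ∈ B) (hA : Acc0 A) :
    Acc0 B := by
  intro ε hε
  have hq0 : (0 : ℝ) < q := by positivity
  obtain ⟨x, hx, hx0, hxn⟩ := hA (min (ε / q) (1 / (2 * q))) (lt_min (by positivity) (by positivity))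
  obtain ⟨r, hr, hrn, hr2⟩ := exists_rep x
  have hr0 : 0 < |r| := by rw [hrn]; exact norm_pos_iff.2 hx0
  have h1 : q * |r| < ε := by
    have := hxn.trans_le (min_le_left _ _)
    rw [← hrn, lt_div_iff₀ hq0] at this
    linarith
  have h2 : q * |r| < 1 / 2 := by
    have := hxn.trans_le (min_le_right _ _)
    rw [← hrn, lt_div_iff₀ (by positivity)] at this
    linarith
  have h3 : ‖q • x‖ = q * |r| := by
    rw [← hr, ← AddCircle.coe_nsmul, nsmul_eq_mul]
    have h4 : |(q : ℝ) * r| = q * |r| := by rw [abs_mul, abs_of_pos hq0]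
    rw [← h4]
    refine (AddCircle.norm_coe_eq_abs_iff (1 : ℝ) one_ne_zero).2 ?_
    rw [h4, abs_one]
    exact h2.le
  refine ⟨q • x, h x hx, ?_, by rw [h3]; exact h1⟩
  rw [← norm_pos_iff, h3]
  positivity

/-- **The core.** -/
theorem core {p q : ℕ} (hq2 : 2 ≤ q) (hqp : q < p) (h : MulIndep p q) {P : Measure Ω}
    [IsProbabilityMeasure P] {σ : Ω → Ω} (hσ : MeasurePreserving σ P P) {A : Ω → Set Circ}
    (hA : ∀ ω, IsClosed (A ω)) (hm : Hit A) (hp' : ∀ ω, ∀ x ∈ A ω, p • x ∈ A (σ ω))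
    (hq' : ∀ ω, ∀ x ∈ A ω, q • x ∈ A (σ ω)) : ∀ᵐ ω ∂P, Acc0 (A ω) → A ω = univ := by
  classical
  have hq1 : (1 : ℝ) < q := by exact_mod_cast (by omega : 1 < q)
  have hq0 : (0 : ℝ) < q := by linarith
  have hqp' : (q : ℝ) < p := by exact_mod_cast hqp
  set α : ℝ := (p : ℝ) / q with hαd
  have hα1 : 1 < α := by rw [hαd, lt_div_iff₀ hq0]; linarith
  have hα0 : 0 < α := by linarith
  -- long progressions
  set G : ℕ → Set Ω := fun K => {ω | Prog α K (A ω)} with hG
  have hGm : ∀ K, MeasurableSet (G K) := fun K => measurable_prog hA hm K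
  set G' : Set Ω := ⋂ K, G K with hG'
  have hG'm : MeasurableSet G' := MeasurableSet.iInter hGm
  -- almost everywhere in `G'` the random set is everything
  have hfull : ∀ᵐ ω ∂P, ω ∈ G' → A ω = univ := by
    obtain ⟨b, hbc, hbe, hb⟩ := TopologicalSpace.exists_countable_basis Circ
    have hnull : ∀ V ∈ b, P (G' ∩ {ω | (A ω ∩ V).Nonempty}ᶜ) = 0 := by
      intro V hV
      have hVo : IsOpen V := hb.isOpen hV
      have hVn : V.Nonempty := nonempty_iff_ne_empty.2 (fun h0 => hbe (h0 ▸ hV))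
      refine recur hσ (hG'm.inter (hm V hVo).compl) ?_
      rintro ω ⟨h1, -⟩
      obtain ⟨R, hR, hRj⟩ := prog_all (hA ω) fun K => mem_iInter.1 h1 K
      refine (lemmaAR hα1 hq0 (theta_orderR hq2 hqp h) hR hVo hVn).mono ?_
      intro m hmB j hj
      refine hmB.2 ⟨_, ?_, hj⟩
      have h2 := iterate_mem hq' m ω _ (hRj j)
      rw [← AddCircle.coe_nsmul, nsmul_eq_mul] at h2
      convert h2 using 2
      push_cast
      ring
    have hall : ∀ᵐ ω ∂P, ∀ V ∈ b, ¬ (ω ∈ G' ∧ ¬ (A ω ∩ V).Nonempty) := by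
      rw [ae_ball_iff hbc]
      intro V hV
      rw [ae_iff]
      simp only [not_not]
      exact hnull V hV
    filter_upwards [hall] with ω hω hG
    have hd : Dense (A ω) := by
      rw [hb.dense_iff]
      intro V hV _
      by_contra hcon
      refine hω V hV ⟨hG, ?_⟩
      rw [inter_comm]; exact hcon
    rw [← (hA ω).closure_eq]
    exact hd.closure_eq
  -- the invariant bad set
  set T : Set Ω := {ω | A ω = univ} with hT
  have hTm : MeasurableSet T := measurable_univ' hA hm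
  set C : Set Ω := {ω | Acc0 (A ω)} ∩ ⋂ n : ℕ, (σ^[n]) ⁻¹' Tᶜ with hC
  have hCm : MeasurableSet C :=
    (measurable_acc0 hm).inter (MeasurableSet.iInter fun n => (hσ.iterate n).measurable hTm.compl)
  have hCinv : ∀ ω ∈ C, σ ω ∈ C := by
    rintro ω ⟨h1, h2⟩
    refine ⟨acc0_step hq2 (hq' ω) h1, ?_⟩
    rw [mem_iInter] at h2 ⊢
    intro n
    have := h2 (n + 1)
    rwa [mem_preimage, Function.iterate_succ_apply] at this
  have hseqp : ∀ ω : Ω, ∀ m, ∀ x ∈ A (σ^[m] ω), p • x ∈ A (σ^[m + 1] ω) := by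
    intro ω m x hx
    rw [Function.iterate_succ_apply']
    exact hp' _ _ hx
  have hseqq : ∀ ω : Ω, ∀ m, ∀ x ∈ A (σ^[m] ω), q • x ∈ A (σ^[m + 1] ω) := by
    intro ω m x hx
    rw [Function.iterate_succ_apply']
    exact hq' _ _ hx
  have hfreq : ∀ K, c0 p q * P.real C ≤ P.real (C ∩ G K) := by
    intro K
    refine freq hσ hCm (hGm K) hCinv (c0_pos hq2 hqp).le (c0_le hq2 hqp) ?_
    rintro ω ⟨h1, -⟩
    obtain ⟨N, hN1, -, S, hS, hcard⟩ := visits hq2 hqp (S := fun m => A (σ^[m] ω)) (hseqp ω)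
      (hseqq ω) h1 K 0
    exact ⟨N, hN1, hcard.trans (card_le_visits σ (G K) ω N S hS)⟩
  have hlim : Tendsto (fun K => P.real (C ∩ G K)) atTop (𝓝 (P.real (C ∩ G'))) := by
    have hanti : Antitone fun K => C ∩ G K := by
      intro K K' hK
      exact inter_subset_inter_right _ fun ω hω => Prog.mono hK hω
    have h1 := tendsto_measure_iInter_atTop (μ := P)
      (fun K => (hCm.inter (hGm K)).nullMeasurableSet) hanti ⟨0, measure_ne_top _ _⟩
    rw [← inter_iInter] at h1
    exact (ENNReal.tendsto_toReal (measure_ne_top _ _)).comp h1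
  have hge : c0 p q * P.real C ≤ P.real (C ∩ G') := ge_of_tendsto' hlim hfreq
  have hzero : P.real (C ∩ G') = 0 := by
    rw [measureReal_eq_zero_iff]
    have h1 : ∀ᵐ ω ∂P, ω ∉ C ∩ G' := by
      filter_upwards [hfull] with ω hω h2
      have h3 := hω h2.2
      have h4 := mem_iInter.1 h2.1.2 0
      exact h4 h3
    rw [ae_iff] at h1
    simpa using h1
  have hC0 : P C = 0 := by
    have h1 : c0 p q * P.real C ≤ 0 := by rw [← hzero]; exact hge
    have h2 : P.real C = 0 := le_antisymm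
      (by by_contra h3; push Not at h3; nlinarith [c0_pos hq2 hqp]) measureReal_nonneg
    rwa [measureReal_eq_zero_iff] at h2
  have hCae : ∀ᵐ ω ∂P, ω ∉ C := by
    rw [ae_iff]; simpa using hC0
  filter_upwards [hCae, univ_back hq2 hσ hA hm hq'] with ω h1 h2 h3
  by_contra h4
  apply h1
  refine ⟨h3, ?_⟩
  rw [mem_iInter]
  intro n h5
  exact h4 (h2 n h5)

end Pool.Agent.Helper28K1.RF
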