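import Mathlib
import Pool.Agent.Helper28K1.RF.Core

/-!
Random closed sets which are moved by `×p` and by `×q` to the same random closed set are almost
surely finite or everything.
-/

set_option autoImplicit false

open MeasureTheory Filter Topology Set

namespace Pool.Agent.Helper28K1.RF

open Pool.Agent.H705R2 Pool.Agent.W765.Sta

lemma MulIndep.symm {p q : ℕ} (h : MulIndep p q) : MulIndep q p := fun a b hab =>
  (h b a hab.symm).symm

lemma MulIndep.ne {p q : ℕ} (h : MulIndep p q) : p ≠ q := by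
  rintro rfl
  exact absurd (h 1 1 rfl).1 one_ne_zero

variable {Ω : Type*} [MeasurableSpace Ω]

/-- The core, symmetric form. -/
theorem core' {p q : ℕ} (hp : 2 ≤ p) (hq : 2 ≤ q) (h : MulIndep p q) {P : Measure Ω}
    [IsProbabilityMeasure P] {σ : Ω → Ω} (hσ : MeasurePreserving σ P P) {A : Ω → Set Circ}
    (hA : ∀ ω, IsClosed (A ω)) (hm : Hit A) (hp' : ∀ ω, ∀ x ∈ A ω, p • x ∈ A (σ ω))
    (hq' : ∀ ω, ∀ x ∈ A ω, q • x ∈ A (σ ω)) : ∀ᵐ ω ∂P, Acc0 (A ω) → A ω = univ := by
  rcases lt_or_gt_of_ne (MulIndep.ne h) with h1 | h1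
  · exact core hp h1 (MulIndep.symm h) hσ hA hm hq' hp'
  · exact core hq h1 h hσ hA hm hp' hq'

/-- the mixed orbit -/
lemma mix_inj {p q : ℕ} (hp : 2 ≤ p) (hq : 2 ≤ q) (h : MulIndep p q) {y : Circ}
    (hy : ¬ IsOfFinAddOrder y) (k : ℕ) :
    Function.Injective fun i : Fin (k + 1) => (p ^ (i : ℕ) * q ^ (k - i)) • y := by
  have key : ∀ i j : Fin (k + 1), i ≤ j → p ^ (i : ℕ) * q ^ (k - i) = p ^ (j : ℕ) * q ^ (k - j) →
      i = j := by
    intro i j hij he
    have hij' : (i : ℕ) ≤ j := hij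
    have h1 : (j : ℕ) ≤ k := by omega
    have e1 : p ^ (j : ℕ) = p ^ (i : ℕ) * p ^ ((j : ℕ) - i) := by
      rw [← pow_add]; congr 1; omega
    have e2 : q ^ (k - (i : ℕ)) = q ^ (k - (j : ℕ)) * q ^ ((j : ℕ) - i) := by
      rw [← pow_add]; congr 1; omega
    rw [e1, e2, mul_assoc] at he
    have h2 := Nat.eq_of_mul_eq_mul_left (by positivity) he
    rw [mul_comm] at h2
    have h3 := Nat.eq_of_mul_eq_mul_right (by positivity) h2
    have h4 := (h _ _ h3.symm).1
    exact Fin.ext (by omega)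
  intro i j hij
  have h1 : Function.Injective fun n : ℕ => n • y := injective_nsmul_iff_not_isOfFinAddOrder.2 hy
  have h2 := h1 hij
  rcases le_total i j with h3 | h3
  · exact key i j h3 h2
  · exact (key j i h3 h2.symm).symm

/-- the event that a random closed set has many points is measurable -/
lemma measurable_card {G : Ω → Set Circ} (hG : ∀ ω, IsClosed (G ω)) (hm : Hit G) (n : ℕ) :
    MeasurableSet {ω | ∃ z : Fin n → Circ, Function.Injective z ∧ ∀ i, z i ∈ G ω} := by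
  have heq : {ω | ∃ z : Fin n → Circ, Function.Injective z ∧ ∀ i, z i ∈ G ω} = ⋃ m : ℕ,
      {ω | ∃ z ∈ {z : Fin n → Circ | ∀ i j, i ≠ j → 1 / ((m : ℝ) + 1) ≤ dist (z i) (z j)},
        ∀ i, z i ∈ G ω} := by
    ext ω
    simp only [mem_ofPred_eq, mem_iUnion]
    constructor
    · rintro ⟨z, hz, hzG⟩
      have hpair : ∀ i j : Fin n, ∃ m : ℕ, i ≠ j → 1 / ((m : ℝ) + 1) ≤ dist (z i) (z j) := by
        intro i j
        by_cases hij : i = j
        · exact ⟨0, fun h => absurd hij h⟩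
        · obtain ⟨m, hm⟩ := exists_nat_one_div_lt (dist_pos.2 (hz.ne hij))
          exact ⟨m, fun _ => hm.le⟩
      choose mm hmm using hpair
      refine ⟨Finset.univ.sup fun i => Finset.univ.sup fun j => mm i j, z, ?_, hzG⟩
      intro i j hij
      refine le_trans ?_ (hmm i j hij)
      apply one_div_le_one_div_of_le (by positivity)
      have h1 : mm i j ≤ Finset.univ.sup fun i => Finset.univ.sup fun j => mm i j :=
        (Finset.le_sup (f := fun j => mm i j) (Finset.mem_univ j)).trans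
          (Finset.le_sup (f := fun i => Finset.univ.sup fun j => mm i j) (Finset.mem_univ i))
      have h2 : (mm i j : ℝ) ≤ ((Finset.univ.sup fun i => Finset.univ.sup fun j => mm i j : ℕ) : ℝ) := by
        exact_mod_cast h1
      linarith
    · rintro ⟨m, z, hz, hzG⟩
      refine ⟨z, ?_, hzG⟩
      intro i j hij
      by_contra hne
      have h1 := hz i j hne
      rw [hij, dist_self] at h1
      have : (0 : ℝ) < 1 / ((m : ℝ) + 1) := by positivity
      linarith
  rw [heq]
  refine MeasurableSet.iUnion fun m => ?_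
  refine measurable_exists hG hm ?_ (fun (i : Fin n) (z : Fin n → Circ) => z i) (fun i => continuous_apply i)
  have : {z : Fin n → Circ | ∀ i j, i ≠ j → 1 / ((m : ℝ) + 1) ≤ dist (z i) (z j)} =
      ⋂ i, ⋂ j, ⋂ (_ : i ≠ j), {z : Fin n → Circ | 1 / ((m : ℝ) + 1) ≤ dist (z i) (z j)} := by
    ext z; simp
  rw [this]
  refine isClosed_iInter fun i => isClosed_iInter fun j => isClosed_iInter fun _ => ?_
  exact isClosed_le continuous_const ((continuous_apply i).dist (continuous_apply j))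

/-- the event that a given point is in the random closed set is measurable -/
lemma measurable_point {G : Ω → Set Circ} (hG : ∀ ω, IsClosed (G ω)) (hm : Hit G) (t : Circ) :
    MeasurableSet {ω | t ∈ G ω} := by
  have h := measurable_exists hG hm (E := (univ : Set (Fin 1 → Circ))) isClosed_univ (ι := Fin 1)
    (fun _ _ => t) (fun _ => continuous_const)
  convert h using 1
  ext ω
  simp

/-- All the points of a finite random closed set which is moved into itself are torsion points. -/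
theorem all_torsion {p q : ℕ} (hp : 2 ≤ p) (hq : 2 ≤ q) (h : MulIndep p q) {P : Measure Ω}
    [IsProbabilityMeasure P] {σ : Ω → Ω} (hσ : MeasurePreserving σ P P) {G : Ω → Set Circ}
    (hG : ∀ ω, IsClosed (G ω)) (hm : Hit G) (hp' : ∀ ω, ∀ x ∈ G ω, p • x ∈ G (σ ω))
    (hq' : ∀ ω, ∀ x ∈ G ω, q • x ∈ G (σ ω)) :
    ∀ᵐ ω ∂P, (G ω).Finite → ∀ t ∈ G ω, IsOfFinAddOrder t := by
  set B : ℕ → Set Ω := fun n => {ω | ∃ z : Fin (n + 1) → Circ, Function.Injective z ∧
    ∀ i, z i ∈ G ω}ᶜ with hB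
  have hBm : ∀ n, MeasurableSet (B n) := fun n => (measurable_card hG hm (n + 1)).compl
  have hall : ∀ᵐ ω ∂P, ∀ n, ω ∈ B n → ∃ᶠ k in atTop, σ^[k] ω ∈ B n := by
    rw [ae_all_iff]
    intro n
    exact hσ.conservative.ae_mem_imp_frequently_image_mem (hBm n).nullMeasurableSet
  filter_upwards [hall] with ω hω hfin y hy
  by_contra hcon
  have hmem : ω ∈ B hfin.toFinset.card := by
    rintro ⟨z, hz, hzG⟩
    have h2 : Finset.univ.image z ⊆ hfin.toFinset := by
      intro x hx
      rw [Finset.mem_image] at hx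
      obtain ⟨i, -, rfl⟩ := hx
      rw [Set.Finite.mem_toFinset]
      exact hzG i
    have h3 := Finset.card_le_card h2
    rw [Finset.card_image_of_injective _ hz, Finset.card_univ, Fintype.card_fin] at h3
    omega
  obtain ⟨k, hk, hkB⟩ := frequently_atTop.1 (hω _ hmem) hfin.toFinset.card
  apply hkB
  have hseqp : ∀ m, ∀ x ∈ G (σ^[m] ω), p • x ∈ G (σ^[m + 1] ω) := by
    intro m x hx
    rw [Function.iterate_succ_apply']
    exact hp' _ _ hx
  have hseqq : ∀ m, ∀ x ∈ G (σ^[m] ω), q • x ∈ G (σ^[m + 1] ω) := by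
    intro m x hx
    rw [Function.iterate_succ_apply']
    exact hq' _ _ hx
  have hyG : y ∈ G (σ^[0] ω) := hy
  refine ⟨fun i => (p ^ (i : ℕ) * q ^ (k - i)) • y, ?_, ?_⟩
  · have h1 := mix_inj hp hq h hcon k
    intro i j hij
    have h2 : (Fin.castLE (by omega : hfin.toFinset.card + 1 ≤ k + 1) i) =
        (Fin.castLE (by omega : hfin.toFinset.card + 1 ≤ k + 1) j) := h1 hij
    exact Fin.castLE_injective _ h2
  · intro i
    have h1 := mem_mix (S := fun m => G (σ^[m] ω)) hseqp hseqq i (k - i) 0 y hyG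
    have e : 0 + ((i : ℕ) + (k - i)) = k := by
      have := i.2
      omega
    rw [e] at h1
    exact h1

/-- A nonempty finite random closed set which is moved into itself contains a torsion point. -/
theorem torsion_of_finite {p q : ℕ} (hp : 2 ≤ p) (hq : 2 ≤ q) (h : MulIndep p q) {P : Measure Ω}
    [IsProbabilityMeasure P] {σ : Ω → Ω} (hσ : MeasurePreserving σ P P) {G : Ω → Set Circ}
    (hG : ∀ ω, IsClosed (G ω)) (hm : Hit G) (hp' : ∀ ω, ∀ x ∈ G ω, p • x ∈ G (σ ω))
    (hq' : ∀ ω, ∀ x ∈ G ω, q • x ∈ G (σ ω)) :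
    ∀ᵐ ω ∂P, (G ω).Nonempty → (G ω).Finite → ∃ t ∈ G ω, IsOfFinAddOrder t := by
  filter_upwards [all_torsion hp hq h hσ hG hm hp' hq'] with ω h1 h2 h3
  obtain ⟨y, hy⟩ := h2
  exact ⟨y, hy, h1 h3 y hy⟩

/-- an infinite random closed set which is moved into itself contains a torsion point -/
theorem exists_torsion' {p q : ℕ} (hp : 2 ≤ p) (hq : 2 ≤ q) (h : MulIndep p q) {P : Measure Ω}
    [IsProbabilityMeasure P] {σ : Ω → Ω} (hσ : MeasurePreserving σ P P) {G : Ω → Set Circ}
    (hG : ∀ ω, IsClosed (G ω)) (hm : Hit G) (hp' : ∀ ω, ∀ x ∈ G ω, p • x ∈ G (σ ω))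
    (hq' : ∀ ω, ∀ x ∈ G ω, q • x ∈ G (σ ω)) :
    ∀ᵐ ω ∂P, (G ω).Infinite → ∃ t ∈ G ω, IsOfFinAddOrder t := by
  have hcore : ∀ N : ℕ, Nat.Coprime (p * q) N → 0 < N → ∀ r : ℕ, ∀ᵐ ω ∂P,
      Acc0 (D G (tau N) r ω) → D G (tau N) r ω = univ := by
    intro N hN hN0 r
    set m := Nat.totient N with hmdef
    have hm0 : 0 < m := Nat.totient_pos.2 hN0
    have hpN : p ^ m • tau N = tau N := pow_smul_eq (Nat.Coprime.coprime_mul_right hN) (smul_tau hN0)
    have hqN : q ^ m • tau N = tau N := pow_smul_eq (Nat.Coprime.coprime_mul_left hN) (smul_tau hN0)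
    have h2p : 2 ≤ p ^ m := hp.trans (Nat.le_self_pow hm0.ne' p)
    have h2q : 2 ≤ q ^ m := hq.trans (Nat.le_self_pow hm0.ne' q)
    refine core' h2p h2q (mulIndep_pow h hm0) (hσ.iterate m) (isClosed_D hG _ _) (hit_D hG hm _ _) ?_ ?_
    · intro ω x hx
      exact smul_mem_D (iterate_mem hp' m ω) hpN hx
    · intro ω x hx
      exact smul_mem_D (iterate_mem hq' m ω) hqN hx
  have hLfin : ∀ N : ℕ, Nat.Coprime (p * q) N → 0 < N → ∀ r : ℕ, ∀ᵐ ω ∂P,
      (L G (tau N) r ω).Nonempty → (L G (tau N) r ω).Finite →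
        ∃ t ∈ L G (tau N) r ω, IsOfFinAddOrder t := by
    intro N hN hN0 r
    set m := Nat.totient N with hmdef
    have hm0 : 0 < m := Nat.totient_pos.2 hN0
    have hpN : p ^ m • tau N = tau N := pow_smul_eq (Nat.Coprime.coprime_mul_right hN) (smul_tau hN0)
    have hqN : q ^ m • tau N = tau N := pow_smul_eq (Nat.Coprime.coprime_mul_left hN) (smul_tau hN0)
    have h2p : 2 ≤ p ^ m := hp.trans (Nat.le_self_pow hm0.ne' p)
    have h2q : 2 ≤ q ^ m := hq.trans (Nat.le_self_pow hm0.ne' q)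
    have hLm : Hit (L G (tau N) r) := by
      refine hit_of_closed fun C hC => ?_
      have h := measurable_exists hG hm (E := C) hC (ι := Fin (r + 1))
        (fun l y => y + (l : ℕ) • tau N) (fun l => by fun_prop)
      convert h using 1
      ext ω
      simp only [mem_ofPred_eq]
      constructor
      · rintro ⟨y, hy, hyC⟩
        exact ⟨y, hyC, hy⟩
      · rintro ⟨y, hyC, hy⟩
        exact ⟨y, hy, hyC⟩
    refine torsion_of_finite h2p h2q (mulIndep_pow h hm0) (hσ.iterate m) (isClosed_L hG _ _) hLm ?_ ?_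
    · intro ω x hx
      exact smul_mem_L (iterate_mem hp' m ω) hpN hx
    · intro ω x hx
      exact smul_mem_L (iterate_mem hq' m ω) hqN hx
  have hall : ∀ᵐ ω ∂P, ∀ N : ℕ, ∀ r : ℕ, Nat.Coprime (p * q) N → 0 < N →
      (Acc0 (D G (tau N) r ω) → D G (tau N) r ω = univ) ∧
      ((L G (tau N) r ω).Nonempty → (L G (tau N) r ω).Finite →
        ∃ t ∈ L G (tau N) r ω, IsOfFinAddOrder t) := by
    rw [ae_all_iff]; intro N
    rw [ae_all_iff]; intro r
    by_cases h1 : Nat.Coprime (p * q) N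
    · by_cases h2 : 0 < N
      · filter_upwards [hcore N h1 h2 r, hLfin N h1 h2 r] with ω hω hω' _ _ using ⟨hω, hω'⟩
      · exact Eventually.of_forall fun ω _ h3 => absurd h3 h2
    · exact Eventually.of_forall fun ω h3 => absurd h3 h1
  filter_upwards [hall] with ω hω hinf
  by_contra hcon
  push Not at hcon
  -- all the sets `L` are infinite
  have hL : ∀ N : ℕ, Nat.Coprime (p * q) N → 0 < N → ∀ r : ℕ, (L G (tau N) r ω).Infinite := by
    intro N hN hN0 r
    induction r with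
    | zero =>
      have : L G (tau N) 0 ω = G ω := by
        ext y
        simp [L]
      rw [this]; exact hinf
    | succ r ih =>
      have h1 := (hω N r hN hN0).1 (acc0_of_infinite ih)
      have h2 : tau N ∈ D G (tau N) r ω := by rw [h1]; trivial
      obtain ⟨y, hy, y', hy', he⟩ := h2
      have hy'' : y ∈ L G (tau N) (r + 1) ω := by
        intro l
        rcases Nat.lt_or_ge (l : ℕ) (r + 1) with hl | hl
        · exact hy ⟨l, hl⟩
        · have hl' : (l : ℕ) = r + 1 := by omega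
          have h3 := hy' ⟨r, by omega⟩
          have h4 : y + (l : ℕ) • tau N = y' + (r : ℕ) • tau N := by
            rw [hl', succ_nsmul]
            have : y' = y + tau N := by rw [he]; abel
            rw [this]; abel
          rw [h4]; exact h3
      intro hfin
      obtain ⟨t, ht, ht'⟩ := (hω N (r + 1) hN hN0).2 ⟨y, hy''⟩ hfin
      have h0 := ht 0
      have : t ∈ G ω := by simpa using h0
      exact hcon t this ht'
  -- hence the set is dense
  have hdense : Dense (G ω) := by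
    rw [Metric.dense_iff]
    intro z ε hε
    obtain ⟨n, hn⟩ := exists_nat_one_div_lt hε
    obtain ⟨N, hN1, hN2⟩ : ∃ N : ℕ, n + 1 ≤ N ∧ Nat.Coprime (p * q) N := by
      refine ⟨p * q * (n + 1) + 1, by nlinarith [Nat.mul_le_mul hp hq], ?_⟩
      rw [mul_comm (p * q) (n + 1)]
      simp
    have hN0 : 0 < N := by omega
    obtain ⟨y, hy⟩ := (hL N hN2 hN0 (N - 1)).nonempty
    obtain ⟨s, hs⟩ := QuotientAddGroup.mk_surjective (z - y)
    have hNR : (0 : ℝ) < N := by exact_mod_cast hN0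
    set f := Int.fract s with hf
    have hfs : ((f : ℝ) : Circ) = z - y := by
      rw [← hs, hf]
      rw [← Int.self_sub_floor, AddCircle.coe_sub]
      have h2 : (((⌊s⌋ : ℤ) : ℝ) : Circ) = 0 := by
        rw [AddCircle.coe_eq_zero_iff]; exact ⟨⌊s⌋, by simp⟩
      rw [h2, sub_zero]
    have hf0 : 0 ≤ f := Int.fract_nonneg s
    have hf1 : f < 1 := Int.fract_lt_one s
    set l := ⌊f * N⌋₊ with hl
    have hl1 : (l : ℝ) ≤ f * N := Nat.floor_le (by positivity)
    have hl2 : f * N < l + 1 := Nat.lt_floor_add_one _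
    have hlN : l < N := by
      have : (l : ℝ) < N := lt_of_le_of_lt hl1 (by nlinarith)
      exact_mod_cast this
    refine ⟨y + l • tau N, ?_, hy ⟨l, by omega⟩⟩
    rw [Metric.mem_ball, dist_comm, dist_eq_norm]
    have h5 : z - (y + l • tau N) = ((f - l / N : ℝ) : Circ) := by
      rw [AddCircle.coe_sub, hfs]
      unfold tau
      rw [← AddCircle.coe_nsmul, nsmul_eq_mul, mul_one_div]
      abel
    rw [h5]
    have h6 : ‖((f - l / N : ℝ) : Circ)‖ ≤ |f - l / N| := by
      have := Pool.Agent.H847R3.XpXq.dist_coe_le (f - l / N) 0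
      rw [AddCircle.coe_zero, dist_zero_right, sub_zero] at this
      exact this
    have h7 : |f - l / N| ≤ 1 / N := by
      rw [abs_of_nonneg (by rw [sub_nonneg, div_le_iff₀ hNR]; exact hl1)]
      rw [sub_le_iff_le_add, ← add_div, le_div_iff₀ hNR]
      linarith
    have h8 : 1 / (N : ℝ) ≤ 1 / ((n : ℝ) + 1) :=
      one_div_le_one_div_of_le (by positivity) (by exact_mod_cast hN1)
    linarith
  have huniv : G ω = univ := by
    rw [← (hG ω).closure_eq]; exact hdense.closure_eq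
  exact hcon 0 (by rw [huniv]; trivial) (IsOfFinAddOrder.zero)

/-- accumulation at a torsion point of order prime to `p q` -/
theorem acc_torsion' {p q : ℕ} (hp : 2 ≤ p) (hq : 2 ≤ q) (h : MulIndep p q) {P : Measure Ω}
    [IsProbabilityMeasure P] {σ : Ω → Ω} (hσ : MeasurePreserving σ P P) {F : Ω → Set Circ}
    (hF : ∀ ω, IsClosed (F ω)) (hm : Hit F) (hp' : ∀ ω, ∀ x ∈ F ω, p • x ∈ F (σ ω))
    (hq' : ∀ ω, ∀ x ∈ F ω, q • x ∈ F (σ ω)) {d : ℕ} (hd0 : 0 < d) (hd : Nat.Coprime (p * q) d)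
    {t : Circ} (ht : d • t = 0) : ∀ᵐ ω ∂P, t ∈ Der F ω → F ω = univ := by
  set m := Nat.totient d with hmdef
  have hm0 : 0 < m := Nat.totient_pos.2 hd0
  have hpt : p ^ m • t = t := pow_smul_eq (Nat.Coprime.coprime_mul_right hd) ht
  have hqt : q ^ m • t = t := pow_smul_eq (Nat.Coprime.coprime_mul_left hd) ht
  have h2p : 2 ≤ p ^ m := hp.trans (Nat.le_self_pow hm0.ne' p)
  have h2q : 2 ≤ q ^ m := hq.trans (Nat.le_self_pow hm0.ne' q)
  have hcont : Continuous (fun u : Circ => u + t) := by fun_prop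
  have hA : ∀ ω, IsClosed ((fun u : Circ => u + t) ⁻¹' F ω) := fun ω => (hF ω).preimage hcont
  have hmA : Hit (fun ω => (fun u : Circ => u + t) ⁻¹' F ω) := by
    intro V hV
    have : {ω | ((fun u : Circ => u + t) ⁻¹' F ω ∩ V).Nonempty} =
        {ω | (F ω ∩ (fun u : Circ => u - t) ⁻¹' V).Nonempty} := by
      ext ω
      constructor
      · rintro ⟨u, hu, huV⟩
        exact ⟨u + t, hu, by simpa using huV⟩
      · rintro ⟨u, hu, huV⟩
        exact ⟨u - t, by simpa using hu, huV⟩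
    rw [this]
    exact hm _ (hV.preimage (by fun_prop))
  have hc := core' h2p h2q (mulIndep_pow h hm0) (hσ.iterate m) hA hmA ?_ ?_
  · filter_upwards [hc] with ω hω htF
    have hacc : Acc0 ((fun u : Circ => u + t) ⁻¹' F ω) := by
      intro ε hε
      obtain ⟨x, hx, hxt, hd⟩ := htF ε hε
      refine ⟨x - t, by simpa using hx, sub_ne_zero.2 hxt, ?_⟩
      rwa [← dist_eq_norm]
    have h1 := hω hacc
    refine eq_univ_of_forall fun y => ?_
    have : y - t ∈ (fun u : Circ => u + t) ⁻¹' F ω := by rw [h1]; trivial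
    simpa using this
  · intro ω x hx
    have := iterate_mem hp' m ω _ hx
    simp only [mem_preimage] at this ⊢
    rwa [smul_add, hpt] at this
  · intro ω x hx
    have := iterate_mem hq' m ω _ hx
    simp only [mem_preimage] at this ⊢
    rwa [smul_add, hqt] at this

/-- **The main theorem, everywhere hypotheses.** -/
theorem star {p q : ℕ} (hp : 2 ≤ p) (hq : 2 ≤ q) (h : MulIndep p q) {P : Measure Ω}
    [IsProbabilityMeasure P] {σ : Ω → Ω} (hσ : MeasurePreserving σ P P) {F : Ω → Set Circ}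
    (hF : ∀ ω, IsClosed (F ω)) (hm : Hit F) (hp' : ∀ ω, ∀ x ∈ F ω, p • x ∈ F (σ ω))
    (hq' : ∀ ω, ∀ x ∈ F ω, q • x ∈ F (σ ω)) :
    ∀ᵐ ω ∂P, ((F ω).Finite ∧ ∀ t ∈ F ω, IsOfFinAddOrder t) ∨ F ω = univ := by
  have hD1 : ∀ ω, ∀ x ∈ Der F ω, p • x ∈ Der F (σ ω) := fun ω x hx =>
    smul_mem_Der (by omega) (hp' ω) hx
  have hD2 : ∀ ω, ∀ x ∈ Der F ω, q • x ∈ Der F (σ ω) := fun ω x hx =>
    smul_mem_Der (by omega) (hq' ω) hx
  have e1 := exists_torsion' hp hq h hσ (isClosed_Der F) (hit_Der hF hm) hD1 hD2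
  have e1' := torsion_of_finite hp hq h hσ (isClosed_Der F) (hit_Der hF hm) hD1 hD2
  -- torsion points
  have e2 : ∀ᵐ ω ∂P, ∀ a : ℕ, ∀ t ∈ {w : Circ | IsOfFinAddOrder w}, ∀ d : ℕ, 0 < d →
      Nat.Coprime (p * q) d → d • t = 0 → t ∈ Der F (σ^[a] ω) → F (σ^[a] ω) = univ := by
    rw [ae_all_iff]; intro a
    rw [ae_ball_iff torsion_countable]; intro t _
    rw [ae_all_iff]; intro d
    by_cases h1 : 0 < d
    · by_cases h2 : Nat.Coprime (p * q) d
      · by_cases h3 : d • t = 0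
        · have h4 := acc_torsion' hp hq h hσ hF hm hp' hq' h1 h2 h3
          have h5 := (hσ.iterate a).quasiMeasurePreserving.ae h4
          filter_upwards [h5] with ω hω _ _ _ using hω
        · exact Eventually.of_forall fun ω _ _ h4 => absurd h4 h3
      · exact Eventually.of_forall fun ω _ h3 => absurd h3 h2
    · exact Eventually.of_forall fun ω h3 => absurd h3 h1
  filter_upwards [e1, e1', e2, univ_back hq hσ hF hm hq', all_torsion hp hq h hσ hF hm hp' hq'] with
    ω h1 h1' h2 h3 h0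
  by_cases hfin : (F ω).Finite
  · left; exact ⟨hfin, h0 hfin⟩
  right
  -- a torsion point in the derived set
  obtain ⟨t, htD, ht⟩ : ∃ t ∈ Der F ω, IsOfFinAddOrder t := by
    by_cases hDinf : (Der F ω).Infinite
    · exact h1 hDinf
    · rw [Set.not_infinite] at hDinf
      obtain ⟨z, -, hz⟩ := Set.Infinite.exists_accPt_of_subset_isCompact (s := F ω)
        (K := univ) hfin isCompact_univ (subset_univ _)
      have hzD : z ∈ Der F ω := mem_Der_of_accPt Subset.rfl hz
      exact h1' ⟨z, hzD⟩ hDinf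
  obtain ⟨a, d, hd1, hd2, hd3⟩ := Pool.Agent.H847R3.XpXq.exists_coprime (m := p * q)
    (by nlinarith) ht
  have hseqp : ∀ m, ∀ x ∈ Der F (σ^[m] ω), p • x ∈ Der F (σ^[m + 1] ω) := by
    intro m x hx
    rw [Function.iterate_succ_apply']
    exact hD1 _ _ hx
  have hseqq : ∀ m, ∀ x ∈ Der F (σ^[m] ω), q • x ∈ Der F (σ^[m + 1] ω) := by
    intro m x hx
    rw [Function.iterate_succ_apply']
    exact hD2 _ _ hx
  have h4 : ((p * q) ^ a) • t ∈ Der F (σ^[0 + (a + a)] ω) := by
    have := mem_mix (S := fun m => Der F (σ^[m] ω)) hseqp hseqq a a 0 t htD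
    rwa [← mul_pow] at this
  have h7 : IsOfFinAddOrder (((p * q) ^ a) • t) :=
    isOfFinAddOrder_iff_nsmul_eq_zero.2 ⟨d, by omega, hd2⟩
  exact h3 _ (h2 _ _ h7 d (by omega) hd3 hd2 h4)

/-- **The main theorem, almost everywhere hypotheses.** -/
theorem star_ae {p q : ℕ} (hp : 2 ≤ p) (hq : 2 ≤ q) (h : MulIndep p q) {P : Measure Ω}
    [IsProbabilityMeasure P] {σ : Ω → Ω} (hσ : MeasurePreserving σ P P) {F : Ω → Set Circ}
    (hF : ∀ ω, IsClosed (F ω)) (hm : Hit F) (hp' : ∀ᵐ ω ∂P, ∀ x ∈ F ω, p • x ∈ F (σ ω))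
    (hq' : ∀ᵐ ω ∂P, ∀ x ∈ F ω, q • x ∈ F (σ ω)) :
    ∀ᵐ ω ∂P, ((F ω).Finite ∧ ∀ t ∈ F ω, IsOfFinAddOrder t) ∨ F ω = univ := by
  classical
  obtain ⟨Z, hZsub, hZm, hZ0⟩ := exists_measurable_superset_of_null (ae_iff.1 (hp'.and hq'))
  set G : Set Ω := ⋂ n : ℕ, (σ^[n]) ⁻¹' Zᶜ with hG
  have hGm : MeasurableSet G := MeasurableSet.iInter fun n => (hσ.iterate n).measurable hZm.compl
  have hGae : ∀ᵐ ω ∂P, ω ∈ G := by
    have : ∀ᵐ ω ∂P, ∀ n : ℕ, σ^[n] ω ∈ Zᶜ := by
      rw [ae_all_iff]; intro n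
      have h0 : ∀ᵐ ω ∂P, ω ∈ Zᶜ := by
        rw [ae_iff]; simpa using hZ0
      exact (hσ.iterate n).quasiMeasurePreserving.ae h0
    filter_upwards [this] with ω hω
    rw [hG, mem_iInter]; exact hω
  have hGσ : ∀ ω ∈ G, σ ω ∈ G := by
    intro ω hω
    rw [hG, mem_iInter] at hω ⊢
    intro n
    have := hω (n + 1)
    rwa [mem_preimage, Function.iterate_succ_apply] at this
  have hGood : ∀ ω ∈ G, (∀ x ∈ F ω, p • x ∈ F (σ ω)) ∧ ∀ x ∈ F ω, q • x ∈ F (σ ω) := by
    intro ω hω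
    rw [hG, mem_iInter] at hω
    have h0 : ω ∉ Z := by simpa using hω 0
    by_contra hcon
    exact h0 (hZsub hcon)
  have key := star hp hq h hσ (F := fun ω => if ω ∈ G then F ω else ∅) ?_ ?_ ?_ ?_
  · filter_upwards [key, hGae] with ω h1 h2
    simpa [h2] using h1
  · intro ω
    by_cases hω : ω ∈ G
    · simp [hω, hF ω]
    · simp [hω]
  · intro V hV
    have : {ω | ((if ω ∈ G then F ω else ∅) ∩ V).Nonempty} = G ∩ {ω | (F ω ∩ V).Nonempty} := by
      ext ω
      by_cases hω : ω ∈ G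
      · simp [hω]
      · simp [hω]
    rw [this]
    exact hGm.inter (hm V hV)
  · intro ω x hx
    by_cases hω : ω ∈ G
    · simp only [hω, if_true, hGσ ω hω] at hx ⊢
      exact (hGood ω hω).1 x hx
    · simp [hω] at hx
  · intro ω x hx
    by_cases hω : ω ∈ G
    · simp only [hω, if_true, hGσ ω hω] at hx ⊢
      exact (hGood ω hω).2 x hx
    · simp [hω] at hx

end Pool.Agent.Helper28K1.RF
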