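import Mathlib
import Pool.Agent.Helper28K1.RF.Star

/-!
Random closed sets over a base on which the action is not free.
-/

set_option autoImplicit false

open MeasureTheory Filter Topology Set

namespace Pool.Agent.Helper28K1.RF

open Pool.Agent.H705R2 Pool.Agent.W765.Sta

/-- the conclusion of Furstenberg's theorem -/
def Trivial (A : Set Circ) : Prop := (A.Finite ∧ ∀ t ∈ A, IsOfFinAddOrder t) ∨ A = univ

variable {Ω : Type*} [MeasurableSpace Ω]

/-- the fibrewise version with torsion points -/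
lemma fibre_ae {p q : ℕ} (hp : 2 ≤ p) (hq : 2 ≤ q) (h : MulIndep p q) {P : Measure Ω}
    [IsProbabilityMeasure P] {σ : Ω → Ω} (hσ : MeasurePreserving σ P P) {F : Ω → Set Circ}
    (hF : ∀ ω, IsClosed (F ω)) (hm : Hit F) (hp' : ∀ᵐ ω ∂P, ∀ x ∈ F ω, p • x ∈ F ω)
    (hq' : ∀ᵐ ω ∂P, ∀ x ∈ F ω, q • x ∈ F (σ ω)) : ∀ᵐ ω ∂P, Trivial (F ω) := by
  filter_upwards [stationary_ae hp hq h hσ hF hm hp' hq', hp'] with ω h1 h2
  rcases h1 with h1 | h1
  · left
    refine ⟨h1, fun t ht => ?_⟩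
    by_contra hcon
    exact infinite_of_inv hp h2 ht hcon h1
  · right; exact h1

/-- restriction of a random closed set to a measurable set -/
lemma hit_restrict {F : Ω → Set Circ} (hm : Hit F) {Z : Set Ω} (hZ : MeasurableSet Z)
    [DecidablePred (· ∈ Z)] : Hit (fun ω => if ω ∈ Z then F ω else ∅) := by
  intro V hV
  have : {ω | ((if ω ∈ Z then F ω else ∅) ∩ V).Nonempty} = Z ∩ {ω | (F ω ∩ V).Nonempty} := by
    ext ω
    by_cases hω : ω ∈ Z
    · simp [hω]
    · simp [hω]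
  rw [this]
  exact hZ.inter (hm V hV)

omit [MeasurableSpace Ω] in
lemma closed_restrict {F : Ω → Set Circ} (hF : ∀ ω, IsClosed (F ω)) {Z : Set Ω}
    [DecidablePred (· ∈ Z)] (ω : Ω) : IsClosed (if ω ∈ Z then F ω else ∅) := by
  by_cases hω : ω ∈ Z
  · simp [hω, hF ω]
  · simp [hω]

/-- the powers of the two maps -/
lemma ae_pow {p q : ℕ} {P : Measure Ω} {α β : Ω → Ω} (hα : MeasurePreserving α P P)
    (hβ : MeasurePreserving β P P) {F : Ω → Set Circ}
    (hp' : ∀ᵐ ω ∂P, ∀ x ∈ F ω, p • x ∈ F (α ω))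
    (hq' : ∀ᵐ ω ∂P, ∀ x ∈ F ω, q • x ∈ F (β ω)) (i j : ℕ) :
    ∀ᵐ ω ∂P, ∀ x ∈ F ω, (p ^ i * q ^ j) • x ∈ F (α^[i] (β^[j] ω)) := by
  have h1 : ∀ j : ℕ, ∀ᵐ ω ∂P, ∀ x ∈ F ω, (q ^ j) • x ∈ F (β^[j] ω) := by
    intro j
    induction j with
    | zero => exact Eventually.of_forall fun ω x hx => by simpa using hx
    | succ j ih =>
      filter_upwards [ih, (hβ.iterate j).quasiMeasurePreserving.ae hq'] with ω h1 h2 x hx
      rw [Function.iterate_succ_apply', pow_succ', mul_smul]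
      exact h2 _ (h1 x hx)
  have h2 : ∀ i : ℕ, ∀ᵐ ω ∂P, ∀ x ∈ F ω, (p ^ i) • x ∈ F (α^[i] ω) := by
    intro i
    induction i with
    | zero => exact Eventually.of_forall fun ω x hx => by simpa using hx
    | succ i ih =>
      filter_upwards [ih, (hα.iterate i).quasiMeasurePreserving.ae hp'] with ω h1 h2 x hx
      rw [Function.iterate_succ_apply', pow_succ', mul_smul]
      exact h2 _ (h1 x hx)
  filter_upwards [h1 j, (hβ.iterate j).quasiMeasurePreserving.ae (h2 i)] with ω h3 h4 x hx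
  rw [mul_smul]
  exact h4 _ (h3 x hx)

lemma MulIndep.powpow {p q : ℕ} (h : MulIndep p q) {i j : ℕ} (hi : 0 < i) (hj : 0 < j) :
    MulIndep (p ^ i) (q ^ j) := by
  intro a b hab
  rw [← pow_mul, ← pow_mul] at hab
  have := h _ _ hab
  constructor
  · rcases Nat.mul_eq_zero.1 this.1 with h1 | h1
    · omega
    · exact h1
  · rcases Nat.mul_eq_zero.1 this.2 with h1 | h1
    · omega
    · exact h1

lemma MulIndep.mul_left {p q : ℕ} (hq : 2 ≤ q) (h : MulIndep p q) {i : ℕ} (hi : 0 < i)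
    (j : ℕ) (hp : 2 ≤ p) : MulIndep (p ^ i * q ^ j) q := by
  intro a b hab
  rw [mul_pow, ← pow_mul, ← pow_mul] at hab
  have h1 : j * a ≤ b := by
    have h2 : q ^ (j * a) ≤ q ^ b := by
      rw [← hab]
      exact Nat.le_mul_of_pos_left _ (by positivity)
    exact (Nat.pow_le_pow_iff_right (by omega)).1 h2
  have h3 : p ^ (i * a) = q ^ (b - j * a) := by
    have h4 : q ^ b = q ^ (b - j * a) * q ^ (j * a) := by
      rw [← pow_add]; congr 1; omega
    rw [h4] at hab
    exact Nat.eq_of_mul_eq_mul_right (by positivity) hab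
  have h5 := (h _ _ h3).1
  have ha : a = 0 := by
    rcases Nat.mul_eq_zero.1 h5 with h6 | h6
    · omega
    · exact h6
  subst ha
  have h6 := (h _ _ h3).2
  simp at h6
  exact ⟨rfl, h6⟩

/-- Random closed sets over the part of the base where the action is not free. -/
theorem nonfree [MeasurableEq Ω] {p q : ℕ} (hp : 2 ≤ p) (hq : 2 ≤ q) (h : MulIndep p q)
    {P : Measure Ω} [IsProbabilityMeasure P] {α β : Ω → Ω} (hα : MeasurePreserving α P P)
    (hβ : MeasurePreserving β P P) (hcomm : Function.Commute α β) {F : Ω → Set Circ}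
    (hF : ∀ ω, IsClosed (F ω)) (hm : Hit F) (hp' : ∀ᵐ ω ∂P, ∀ x ∈ F ω, p • x ∈ F (α ω))
    (hq' : ∀ᵐ ω ∂P, ∀ x ∈ F ω, q • x ∈ F (β ω)) :
    ∀ᵐ ω ∂P, (∃ i j : ℕ, (i ≠ 0 ∨ j ≠ 0) ∧ (α^[i] ω = β^[j] ω ∨ α^[i] (β^[j] ω) = ω)) →
      Trivial (F ω) := by
  classical
  have hall : ∀ i j : ℕ, (i ≠ 0 ∨ j ≠ 0) → ∀ᵐ ω ∂P,
      (α^[i] ω = β^[j] ω → Trivial (F ω)) ∧ (α^[i] (β^[j] ω) = ω → Trivial (F ω)) := by
    intro i j hij
    have hcomm' : ∀ a b : ℕ, ∀ ω, α^[a] (β^[b] ω) = β^[b] (α^[a] ω) := fun a b ω =>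
      (hcomm.iterate_iterate a b) ω
    have hααc : ∀ a : ℕ, ∀ ω, α^[a] (α ω) = α (α^[a] ω) := fun a ω =>
      (Function.Commute.iterate_self α a) ω
    have hββc : ∀ a : ℕ, ∀ ω, β^[a] (β ω) = β (β^[a] ω) := fun a ω =>
      (Function.Commute.iterate_self β a) ω
    have hβα : ∀ b : ℕ, ∀ ω, β^[b] (α ω) = α (β^[b] ω) := fun b ω => (hcomm' 1 b ω).symm
    have hαβ : ∀ a : ℕ, ∀ ω, α^[a] (β ω) = β (α^[a] ω) := fun a ω => hcomm' a 1 ω
    -- general restriction principle
    have hZ1m : MeasurableSet {ω | α^[i] ω = β^[j] ω} :=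
      measurableSet_eq_fun (hα.iterate i).measurable (hβ.iterate j).measurable
    have hZ2m : MeasurableSet {ω | α^[i] (β^[j] ω) = ω} :=
      measurableSet_eq_fun ((hα.iterate i).measurable.comp (hβ.iterate j).measurable) measurable_id
    have hpi := ae_pow hα hβ hp' hq' i 0
    have hqj := ae_pow hα hβ hp' hq' 0 j
    have hpq := ae_pow hα hβ hp' hq' i j
    simp only [pow_zero, mul_one, one_mul, Function.iterate_zero, id] at hpi hqj
    have hα1 : ∀ ω ∈ {ω | α^[i] ω = β^[j] ω}, α ω ∈ {ω | α^[i] ω = β^[j] ω} := by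
      intro ω hω
      simp only [mem_ofPred_eq] at hω ⊢
      rw [hααc, hβα, hω]
    have hβ1 : ∀ ω ∈ {ω | α^[i] ω = β^[j] ω}, β ω ∈ {ω | α^[i] ω = β^[j] ω} := by
      intro ω hω
      simp only [mem_ofPred_eq] at hω ⊢
      rw [hββc, hαβ, hω]
    have hα2 : ∀ ω ∈ {ω | α^[i] (β^[j] ω) = ω}, α ω ∈ {ω | α^[i] (β^[j] ω) = ω} := by
      intro ω hω
      simp only [mem_ofPred_eq] at hω ⊢
      rw [hβα, hααc, hω]
    have hβ2 : ∀ ω ∈ {ω | α^[i] (β^[j] ω) = ω}, β ω ∈ {ω | α^[i] (β^[j] ω) = ω} := by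
      intro ω hω
      simp only [mem_ofPred_eq] at hω ⊢
      rw [hββc, hαβ, hω]
    have hαi : ∀ ω ∈ {ω | α^[i] ω = β^[j] ω}, ∀ k, α^[k] ω ∈ {ω | α^[i] ω = β^[j] ω} := by
      intro ω hω k
      induction k with
      | zero => exact hω
      | succ k ih => rw [Function.iterate_succ_apply']; exact hα1 _ ih
    have hrest : ∀ (Z : Set Ω) (γ : Ω → Ω) (r : ℕ), (∀ ω ∈ Z, γ ω ∈ Z) →
        (∀ᵐ ω ∂P, ω ∈ Z → ∀ x ∈ F ω, r • x ∈ F (γ ω)) →
        ∀ᵐ ω ∂P, ∀ x ∈ (if ω ∈ Z then F ω else ∅), r • x ∈ (if γ ω ∈ Z then F (γ ω) else ∅) := by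
      intro Z γ r hγ hae
      filter_upwards [hae] with ω h1 x hx
      by_cases hω : ω ∈ Z
      · simp only [hω, if_true, hγ ω hω] at hx ⊢
        exact h1 hω x hx
      · simp [hω] at hx
    have hrest' : ∀ (Z : Set Ω) (r : ℕ), (∀ᵐ ω ∂P, ω ∈ Z → ∀ x ∈ F ω, r • x ∈ F ω) →
        ∀ᵐ ω ∂P, ∀ x ∈ (if ω ∈ Z then F ω else ∅), r • x ∈ (if ω ∈ Z then F ω else ∅) := by
      intro Z r hae
      filter_upwards [hae] with ω h1 x hx
      by_cases hω : ω ∈ Z
      · simp only [hω, if_true] at hx ⊢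
        exact h1 hω x hx
      · simp [hω] at hx
    have hfinal : ∀ (Z : Set Ω), (∀ᵐ ω ∂P, Trivial (if ω ∈ Z then F ω else ∅)) →
        ∀ᵐ ω ∂P, ω ∈ Z → Trivial (F ω) := by
      intro Z hZ
      filter_upwards [hZ] with ω h1 hω
      simpa [hω] using h1
    have c1 : ∀ᵐ ω ∂P, ω ∈ {ω | α^[i] ω = β^[j] ω} → Trivial (F ω) := by
      refine hfinal _ ?_
      rcases Nat.eq_zero_or_pos i with hi | hi
      · -- `β^j = id`
        have hj : 0 < j := by omega
        refine fibre_ae (hq.trans (Nat.le_self_pow hj.ne' q)) hp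
          (MulIndep.symm (by simpa using MulIndep.powpow h (i := 1) one_pos hj)) hα
          (closed_restrict hF) (hit_restrict hm hZ1m) ?_ ?_
        · refine hrest' _ _ ?_
          filter_upwards [hqj] with ω h1 hω x hx
          have hω' : α^[i] ω = β^[j] ω := hω
          rw [hi] at hω'
          have h2 := h1 x hx
          rw [← hω'] at h2
          exact h2
        · refine hrest _ α p hα1 ?_
          filter_upwards [hp'] with ω h1 _ using h1
      rcases Nat.eq_zero_or_pos j with hj | hj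
      · refine fibre_ae (hp.trans (Nat.le_self_pow hi.ne' p)) hq
          (by simpa using MulIndep.powpow h hi (j := 1) one_pos) hβ
          (closed_restrict hF) (hit_restrict hm hZ1m) ?_ ?_
        · refine hrest' _ _ ?_
          filter_upwards [hpi] with ω h1 hω x hx
          have hω' : α^[i] ω = β^[j] ω := hω
          rw [hj] at hω'
          have h2 := h1 x hx
          rw [hω'] at h2
          exact h2
        · refine hrest _ β q hβ1 ?_
          filter_upwards [hq'] with ω h1 _ using h1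
      · have := star_ae (hp.trans (Nat.le_self_pow hi.ne' p)) (hq.trans (Nat.le_self_pow hj.ne' q))
          (MulIndep.powpow h hi hj) (hα.iterate i)
          (F := fun ω => if ω ∈ {ω | α^[i] ω = β^[j] ω} then F ω else ∅)
          (closed_restrict hF) (hit_restrict hm hZ1m) ?_ ?_
        · exact this
        · refine hrest _ (α^[i]) _ (fun ω hω => hαi ω hω i) ?_
          filter_upwards [hpi] with ω h1 _ using h1
        · refine hrest _ (α^[i]) _ (fun ω hω => hαi ω hω i) ?_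
          filter_upwards [hqj] with ω h1 hω x hx
          have hω' : α^[i] ω = β^[j] ω := hω
          rw [hω']
          exact h1 x hx
    have c2 : ∀ᵐ ω ∂P, ω ∈ {ω | α^[i] (β^[j] ω) = ω} → Trivial (F ω) := by
      refine hfinal _ ?_
      rcases Nat.eq_zero_or_pos i with hi | hi
      · have hj : 0 < j := by omega
        refine fibre_ae (hq.trans (Nat.le_self_pow hj.ne' q)) hp
          (MulIndep.symm (by simpa using MulIndep.powpow h (i := 1) one_pos hj)) hα
          (closed_restrict hF) (hit_restrict hm hZ2m) ?_ ?_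
        · refine hrest' _ _ ?_
          filter_upwards [hqj] with ω h1 hω x hx
          have hω' : α^[i] (β^[j] ω) = ω := hω
          rw [hi] at hω'
          have h2 := h1 x hx
          have h3 : β^[j] ω = ω := hω'
          rw [h3] at h2
          exact h2
        · refine hrest _ α p hα2 ?_
          filter_upwards [hp'] with ω h1 _ using h1
      · have h2pq : 2 ≤ p ^ i * q ^ j := by
          calc 2 ≤ p := hp
            _ ≤ p ^ i := Nat.le_self_pow hi.ne' p
            _ ≤ p ^ i * q ^ j := Nat.le_mul_of_pos_right _ (by positivity)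
        refine fibre_ae h2pq hq (MulIndep.mul_left hq h hi j hp) hβ
          (closed_restrict hF) (hit_restrict hm hZ2m) ?_ ?_
        · refine hrest' _ _ ?_
          filter_upwards [hpq] with ω h1 hω x hx
          have hω' : α^[i] (β^[j] ω) = ω := hω
          have h2 := h1 x hx
          rwa [hω'] at h2
        · refine hrest _ β q hβ2 ?_
          filter_upwards [hq'] with ω h1 _ using h1
    filter_upwards [c1, c2] with ω h1 h2 using ⟨h1, h2⟩
  have hall' : ∀ᵐ ω ∂P, ∀ i j : ℕ, (i ≠ 0 ∨ j ≠ 0) →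
      (α^[i] ω = β^[j] ω → Trivial (F ω)) ∧ (α^[i] (β^[j] ω) = ω → Trivial (F ω)) := by
    rw [ae_all_iff]; intro i
    rw [ae_all_iff]; intro j
    by_cases hij : i ≠ 0 ∨ j ≠ 0
    · filter_upwards [hall i j hij] with ω hω _ using hω
    · exact Eventually.of_forall fun ω h1 => absurd h1 hij
  filter_upwards [hall'] with ω hω
  rintro ⟨i, j, hij, h1 | h1⟩
  · exact (hω i j hij).1 h1
  · exact (hω i j hij).2 h1

end Pool.Agent.Helper28K1.RF
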