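import Mathlib
import Pool.Agent.Helper28K1.RF.NonFree

/-!
Conditional supports, the two-sided theorem and the mixed directions.
-/

set_option autoImplicit false

open MeasureTheory Filter Topology Set

namespace Pool.Agent.Helper28K1.RF

open Pool.Agent.H705R2 Pool.Agent.W765.Sta

variable {Ω : Type*} [MeasurableSpace Ω]

/-- measurable hulls -/
lemma exists_hull {P : Measure Ω} [IsProbabilityMeasure P] {J : Set (Set Ω)}
    (hJm : ∀ A ∈ J, MeasurableSet A) (hJu : univ ∈ J)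
    (hJi : ∀ A : ℕ → Set Ω, (∀ n, A n ∈ J) → (⋂ n, A n) ∈ J) (S : Set Ω) :
    ∃ H ∈ J, P (S \ H) = 0 ∧ ∀ B ∈ J, P (S \ B) = 0 → P (H \ B) = 0 := by
  set c : ENNReal := ⨅ A ∈ {A ∈ J | P (S \ A) = 0}, P A with hc
  have hcfin : c ≠ ⊤ := by
    have h1 : c ≤ P univ := by
      refine iInf₂_le_of_le univ ⟨hJu, by simp⟩ le_rfl
    exact ne_top_of_le_ne_top (measure_ne_top P univ) h1
  have hex : ∀ n : ℕ, ∃ A ∈ {A ∈ J | P (S \ A) = 0}, P A < c + ((n : ENNReal) + 1)⁻¹ := by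
    intro n
    have h1 : c < c + ((n : ENNReal) + 1)⁻¹ := by
      refine ENNReal.lt_add_right hcfin ?_
      rw [ne_eq, ENNReal.inv_eq_zero]
      exact ENNReal.add_ne_top.2 ⟨ENNReal.natCast_ne_top n, ENNReal.one_ne_top⟩
    obtain ⟨A, hA⟩ := iInf_lt_iff.1 h1
    obtain ⟨hA1, hA2⟩ := iInf_lt_iff.1 hA
    exact ⟨A, hA1, hA2⟩
  choose A hA1 hA2 using hex
  have hHJ : (⋂ n, A n) ∈ J := hJi A fun n => (hA1 n).1
  have hle : P (⋂ n, A n) ≤ c := by
    refine ENNReal.le_of_forall_pos_le_add fun ε hε _ => ?_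
    obtain ⟨n, hn⟩ := ENNReal.exists_inv_nat_lt (a := (ε : ENNReal)) (by simpa using hε.ne')
    calc P (⋂ n, A n) ≤ P (A n) := measure_mono (iInter_subset _ _)
      _ ≤ c + ((n : ENNReal) + 1)⁻¹ := (hA2 n).le
      _ ≤ c + ε := by
        gcongr
        refine le_trans ?_ hn.le
        rw [ENNReal.inv_le_inv]
        exact le_self_add
  refine ⟨⋂ n, A n, hHJ, ?_, ?_⟩
  · rw [sdiff_iInter]
    exact measure_iUnion_null fun n => (hA1 n).2
  · intro B hB hSB
    have hHB : (⋂ n, A n) ∩ B ∈ J := by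
      have := hJi (fun n => Nat.casesOn n B (fun k => A k)) (by
        intro n
        cases n with
        | zero => exact hB
        | succ k => exact (hA1 k).1)
      convert this using 1
      ext ω
      simp only [mem_inter_iff, mem_iInter]
      constructor
      · rintro ⟨h1, h2⟩ n
        cases n with
        | zero => exact h2
        | succ k => exact h1 k
      · intro h1
        exact ⟨fun n => h1 (n + 1), h1 0⟩
    have h1 : c ≤ P ((⋂ n, A n) ∩ B) := by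
      refine iInf₂_le_of_le _ ⟨hHB, ?_⟩ le_rfl
      refine measure_mono_null (t := (S \ (⋂ n, A n)) ∪ (S \ B)) ?_ (measure_union_null ?_ hSB)
      · rintro ω ⟨h1, h2⟩
        by_cases h3 : ω ∈ ⋂ n, A n
        · right
          exact ⟨h1, fun h4 => h2 ⟨h3, h4⟩⟩
        · left
          exact ⟨h1, h3⟩
      · rw [sdiff_iInter]
        exact measure_iUnion_null fun n => (hA1 n).2
    have h2 : (⋂ n, A n) \ B = (⋂ n, A n) \ ((⋂ n, A n) ∩ B) := by
      ext ω; simp
    rw [h2, measure_sdiff inter_subset_left (hJm _ hHB).nullMeasurableSet (measure_ne_top P _)]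
    exact tsub_eq_zero_of_le (hle.trans h1)

/-- The conditional support of a random point. -/
theorem exists_cond_supp {P : Measure Ω} [IsProbabilityMeasure P] {J : Set (Set Ω)}
    (hJm : ∀ A ∈ J, MeasurableSet A) (hJu : univ ∈ J)
    (hJi : ∀ A : ℕ → Set Ω, (∀ n, A n ∈ J) → (⋂ n, A n) ∈ J) {X : Ω → Circ} :
    ∃ F : Ω → Set Circ, (∀ ω, IsClosed (F ω)) ∧ Hit F ∧ (∀ᵐ ω ∂P, X ω ∈ F ω) ∧
      (∀ (γ : Ω → Ω) (k : ℕ), MeasurePreserving γ P P → (∀ A ∈ J, γ ⁻¹' A ∈ J) →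
        (∀ᵐ ω ∂P, X (γ ω) = k • X ω) → ∀ᵐ ω ∂P, ∀ x ∈ F ω, k • x ∈ F (γ ω)) ∧
      (∀ (γ γ' : Ω → Ω), (∀ A ∈ J, ∀ᵐ ω ∂P, (γ ω ∈ A ↔ γ' ω ∈ A)) →
        ∀ᵐ ω ∂P, F (γ ω) = F (γ' ω)) ∧
      ((∀ᵐ ω ∂P, F ω = univ) → ∀ A : Set Ω, Aᶜ ∈ J → ∀ U : Set Circ, IsOpen U → U.Nonempty →
        P (A ∩ X ⁻¹' U) = 0 → P A = 0) := by
  classical
  obtain ⟨b, hbc, hbe, hb⟩ := TopologicalSpace.exists_countable_basis Circ
  choose H hHJ hH1 hH2 using fun V : Set Circ => exists_hull (P := P) hJm hJu hJi (X ⁻¹' V)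
  set F : Ω → Set Circ := fun ω => {y | ∀ V ∈ b, y ∈ V → ω ∈ H V} with hF
  refine ⟨F, ?_, ?_, ?_, ?_, ?_, ?_⟩
  · intro ω
    rw [← isOpen_compl_iff, isOpen_iff_mem_nhds]
    intro y hy
    simp only [hF, mem_compl_iff, mem_ofPred_eq, not_forall] at hy
    obtain ⟨V, hV, hyV, hω⟩ := hy
    refine mem_of_superset ((hb.isOpen hV).mem_nhds hyV) ?_
    intro z hz hzF
    exact hω (hzF V hV hz)
  · refine hit_of_closed fun C hC => ?_
    have hcount : {s : Set (Set Circ) | s.Finite ∧ s ⊆ b ∧ C ⊆ ⋃₀ s}.Countable := by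
      refine (Set.countable_ofPred_finite_subset hbc).mono ?_
      intro s hs
      exact ⟨hs.1, hs.2.1⟩
    have heq : {ω | (F ω ∩ C).Nonempty} =
        (⋃ s ∈ {s : Set (Set Circ) | s.Finite ∧ s ⊆ b ∧ C ⊆ ⋃₀ s}, ⋂ V ∈ s, (H V)ᶜ)ᶜ := by
      ext ω
      rw [mem_ofPred_eq, mem_compl_iff, ← not_iff_not, not_not, not_nonempty_iff_eq_empty]
      simp only [mem_iUnion, mem_iInter, mem_compl_iff, exists_prop]
      constructor
      · intro h0
        obtain ⟨t, ht, htfin, htC⟩ := hC.isCompact.elim_finite_subcover_image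
          (b := {V ∈ b | ω ∉ H V}) (c := id) (fun V hV => hb.isOpen hV.1) (by
            intro y hy
            have hyF : y ∉ F ω := by
              intro h1
              have : y ∈ F ω ∩ C := ⟨h1, hy⟩
              rw [h0] at this
              exact this
            simp only [hF, mem_ofPred_eq, not_forall] at hyF
            obtain ⟨V, hV, hyV, hω⟩ := hyF
            rw [mem_iUnion₂]
            exact ⟨V, ⟨hV, hω⟩, hyV⟩)
        refine ⟨t, ⟨htfin, fun V hV => (ht hV).1, ?_⟩, fun V hV => (ht hV).2⟩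
        rw [sUnion_eq_biUnion]
        exact htC
      · rintro ⟨s, ⟨-, hsb, hsC⟩, hs⟩
        rw [eq_empty_iff_forall_notMem]
        rintro y ⟨hy1, hy2⟩
        obtain ⟨V, hV, hyV⟩ := hsC hy2
        exact hs V hV (hy1 V (hsb hV) hyV)
    rw [heq]
    refine (MeasurableSet.biUnion hcount fun s hs => ?_).compl
    exact MeasurableSet.biInter (hs.1.countable) fun V _ => (hJm _ (hHJ V)).compl
  · have h1 : ∀ᵐ ω ∂P, ∀ V ∈ b, ω ∈ X ⁻¹' V → ω ∈ H V := by
      rw [ae_ball_iff hbc]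
      intro V _
      rw [ae_iff]
      refine measure_mono_null ?_ (hH1 V)
      intro ω hω
      simp only [mem_ofPred_eq, Classical.not_imp] at hω
      exact hω
    filter_upwards [h1] with ω hω V hV hXV
    exact hω V hV hXV
  · intro γ k hγ hγJ hXγ
    have h1 : ∀ V ∈ b, ∀ W ∈ b, (∀ x ∈ V, k • x ∈ W) → ∀ᵐ ω ∂P, ω ∈ H V → γ ω ∈ H W := by
      intro V _ W _ hVW
      have h2 : P (X ⁻¹' V \ γ ⁻¹' (H W)) = 0 := by
        have h3 : P (γ ⁻¹' (X ⁻¹' W \ H W)) = 0 := hγ.quasiMeasurePreserving.preimage_null (hH1 W)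
        refine measure_mono_null (t := γ ⁻¹' (X ⁻¹' W \ H W) ∪ {ω | ¬ X (γ ω) = k • X ω}) ?_
          (measure_union_null h3 (ae_iff.1 hXγ))
        rintro ω ⟨h4, h5⟩
        by_cases h6 : X (γ ω) = k • X ω
        · left
          refine ⟨?_, h5⟩
          simp only [mem_preimage, h6]
          exact hVW _ h4
        · right; exact h6
      have h3 := hH2 V _ (hγJ _ (hHJ W)) h2
      rw [ae_iff]
      refine measure_mono_null ?_ h3
      intro ω hω
      simp only [mem_ofPred_eq, Classical.not_imp] at hω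
      exact hω
    have h2 : ∀ᵐ ω ∂P, ∀ V ∈ b, ∀ W ∈ b, (∀ x ∈ V, k • x ∈ W) → ω ∈ H V → γ ω ∈ H W := by
      rw [ae_ball_iff hbc]
      intro V hV
      rw [ae_ball_iff hbc]
      intro W hW
      by_cases hVW : ∀ x ∈ V, k • x ∈ W
      · filter_upwards [h1 V hV W hW hVW] with ω hω _ using hω
      · exact Eventually.of_forall fun ω h3 => absurd h3 hVW
    filter_upwards [h2] with ω hω x hx W hW hxW
    obtain ⟨V, hV, hxV, hVW⟩ := hb.exists_subset_of_mem_open (a := x)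
      (u := (fun y : Circ => k • y) ⁻¹' W) hxW ((hb.isOpen hW).preimage (continuous_nsmul k))
    exact hω V hV W hW (fun y hy => hVW hy) (hx V hV hxV)
  · intro γ γ' hγ
    have h1 : ∀ᵐ ω ∂P, ∀ V ∈ b, (γ ω ∈ H V ↔ γ' ω ∈ H V) := by
      rw [ae_ball_iff hbc]
      intro V _
      exact hγ _ (hHJ V)
    filter_upwards [h1] with ω hω
    ext y
    simp only [hF, mem_ofPred_eq]
    constructor
    · intro h2 V hV hy
      exact (hω V hV).1 (h2 V hV hy)
    · intro h2 V hV hy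
      exact (hω V hV).2 (h2 V hV hy)
  · intro hu A hA U hU hUn hAU
    obtain ⟨y, hy⟩ := hUn
    obtain ⟨V, hV, hyV, hVU⟩ := hb.exists_subset_of_mem_open hy hU
    have h1 : P (X ⁻¹' V \ Aᶜ) = 0 := by
      refine measure_mono_null ?_ hAU
      rintro ω ⟨h2, h3⟩
      exact ⟨not_not.1 h3, hVU h2⟩
    have h2 := hH2 V _ hA h1
    have h3 : ∀ᵐ ω ∂P, ω ∈ H V := by
      filter_upwards [hu] with ω hω
      have : y ∈ F ω := by rw [hω]; trivial
      exact this V hV hyV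
    rw [ae_iff] at h3
    refine measure_mono_null (t := (H V \ Aᶜ) ∪ {ω | ¬ ω ∈ H V}) ?_ (measure_union_null h2 h3)
    intro ω hω
    by_cases h4 : ω ∈ H V
    · left; exact ⟨h4, fun h5 => h5 hω⟩
    · right; exact h4

/-- **Two-sided orbits.** -/
theorem two_sided {p q : ℕ} (hp : 2 ≤ p) (hq : 2 ≤ q) (h : MulIndep p q) {P : Measure Ω}
    [IsProbabilityMeasure P] (τ : Ω ≃ᵐ Ω) (hτ : MeasurePreserving τ P P) {X : Ω → Circ}
    (hX : Measurable X) (hXτ : ∀ᵐ ω ∂P, X (τ ω) = p • X ω) (hat : ∀ x : Circ, P (X ⁻¹' {x}) = 0)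
    {c d : ℕ} (hc : 0 < c) (hd : 0 < d) :
    ∀ᵐ ω ∂P, Dense (range fun n : ℕ => (q ^ (d * n)) • X (τ.symm^[c * n] ω)) := by
  set F : Ω → Set Circ := fun ω => closure (range fun n : ℕ => (q ^ (d * n)) • X (τ.symm^[c * n] ω))
    with hF
  have hτs : MeasurePreserving τ.symm P P := hτ.symm τ
  have hXc : ∀ c : ℕ, ∀ᵐ ω ∂P, X (τ^[c] ω) = p ^ c • X ω := by
    intro c
    induction c with
    | zero => exact Eventually.of_forall fun ω => by simp
    | succ c ih =>
      filter_upwards [ih, (hτ.iterate c).quasiMeasurePreserving.ae hXτ] with ω h1 h2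
      rw [Function.iterate_succ_apply', h2, h1, pow_succ', mul_smul]
  have hall : ∀ᵐ ω ∂P, ∀ n : ℕ, X (τ^[c] (τ.symm^[c * n] ω)) = p ^ c • X (τ.symm^[c * n] ω) := by
    rw [ae_all_iff]
    intro n
    exact (hτs.iterate (c * n)).quasiMeasurePreserving.ae (hXc c)
  have hcomm : Function.Commute τ τ.symm := fun ω => by simp
  have hcomm' : ∀ a b : ℕ, ∀ ω, τ^[a] (τ.symm^[b] ω) = τ.symm^[b] (τ^[a] ω) := fun a b ω =>
    (hcomm.iterate_iterate a b) ω
  have hcancel : ∀ a : ℕ, ∀ ω, τ.symm^[a] (τ^[a] ω) = ω := by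
    intro a
    have : Function.LeftInverse (τ.symm^[a]) (τ^[a]) :=
      Function.LeftInverse.iterate (fun ω => by simp) a
    exact this
  have hcl : ∀ ω, IsClosed (F ω) := fun ω => isClosed_closure
  have hm : Hit F := by
    intro V hV
    have : {ω | (F ω ∩ V).Nonempty} =
        ⋃ n : ℕ, (fun ω => (q ^ (d * n)) • X (τ.symm^[c * n] ω)) ⁻¹' V := by
      ext ω
      simp only [mem_ofPred_eq, mem_iUnion, mem_preimage]
      constructor
      · rintro ⟨y, hy, hyV⟩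
        obtain ⟨_, h1, n, rfl⟩ := mem_closure_iff.1 hy V hV hyV
        exact ⟨n, h1⟩
      · rintro ⟨n, hn⟩
        exact ⟨_, subset_closure ⟨n, rfl⟩, hn⟩
    rw [this]
    refine MeasurableSet.iUnion fun n => ?_
    have h1 : Measurable fun ω => (q ^ (d * n)) • X (τ.symm^[c * n] ω) :=
      (continuous_nsmul _).measurable.comp (hX.comp (hτs.iterate (c * n)).measurable)
    exact h1 hV.measurableSet
  have hst := star_ae (hp.trans (Nat.le_self_pow hc.ne' p)) (hq.trans (Nat.le_self_pow hd.ne' q))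
    (MulIndep.powpow h hc hd) (hτ.iterate c) hcl hm ?_ ?_
  · have htor : ∀ᵐ ω ∂P, ¬ IsOfFinAddOrder (X ω) := by
      have h1 : P (X ⁻¹' {w : Circ | IsOfFinAddOrder w}) = 0 := by
        have h2 : X ⁻¹' {w : Circ | IsOfFinAddOrder w} =
            ⋃ w ∈ {w : Circ | IsOfFinAddOrder w}, X ⁻¹' {w} := by
          ext ω; simp
        rw [h2]
        exact (measure_biUnion_null_iff torsion_countable).2 fun w _ => hat w
      rw [ae_iff]
      simp only [not_not]
      exact h1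
    filter_upwards [hst, htor] with ω h1 h2
    rcases h1 with ⟨-, h1⟩ | h1
    · exfalso
      refine h2 (h1 _ (subset_closure ⟨0, ?_⟩))
      simp
    · rw [dense_iff_closure_eq]; exact h1
  · filter_upwards [hall] with ω hω x hx
    have hmaps : MapsTo (fun y : Circ => p ^ c • y)
        (range fun n : ℕ => (q ^ (d * n)) • X (τ.symm^[c * n] ω))
        (range fun n : ℕ => (q ^ (d * n)) • X (τ.symm^[c * n] (τ^[c] ω))) := by
      rintro _ ⟨n, rfl⟩
      refine ⟨n, ?_⟩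
      simp only
      rw [← hcomm', hω n, smul_comm]
    exact map_mem_closure (continuous_nsmul (p ^ c)) hx hmaps
  · refine Eventually.of_forall fun ω x hx => ?_
    have hmaps : MapsTo (fun y : Circ => q ^ d • y)
        (range fun n : ℕ => (q ^ (d * n)) • X (τ.symm^[c * n] ω))
        (range fun n : ℕ => (q ^ (d * n)) • X (τ.symm^[c * n] (τ^[c] ω))) := by
      rintro _ ⟨n, rfl⟩
      refine ⟨n + 1, ?_⟩
      simp only
      rw [mul_add, mul_add, mul_one, mul_one, Function.iterate_add_apply, hcancel, smul_smul,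
        ← pow_add, add_comm d]
    exact map_mem_closure (continuous_nsmul (q ^ d)) hx hmaps

/-- **The sets invariant under some element of the action have full support.** -/
theorem directions {p q : ℕ} (hp : 2 ≤ p) (hq : 2 ≤ q) (h : MulIndep p q) {P : Measure Ω}
    [IsProbabilityMeasure P] {α β : Ω → Ω} (hα : MeasurePreserving α P P)
    (hβ : MeasurePreserving β P P) (hcomm : Function.Commute α β) {X : Ω → Circ}
    (hXα : ∀ᵐ ω ∂P, X (α ω) = p • X ω) (hXβ : ∀ᵐ ω ∂P, X (β ω) = q • X ω)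
    (hat : ∀ x : Circ, P (X ⁻¹' {x}) = 0) {i j : ℕ} (hij : i ≠ 0 ∨ j ≠ 0) {A : Set Ω}
    (hA : MeasurableSet A) (hA0 : P A ≠ 0)
    (hinv : (∀ᵐ ω ∂P, (α^[i] ω ∈ A ↔ β^[j] ω ∈ A)) ∨ ∀ᵐ ω ∂P, (α^[i] (β^[j] ω) ∈ A ↔ ω ∈ A))
    {U : Set Circ} (hU : IsOpen U) (hUn : U.Nonempty) : P (A ∩ X ⁻¹' U) ≠ 0 := by
  have htor : ∀ᵐ ω ∂P, ¬ IsOfFinAddOrder (X ω) := by
    have h1 : P (X ⁻¹' {w : Circ | IsOfFinAddOrder w}) = 0 := by
      have h2 : X ⁻¹' {w : Circ | IsOfFinAddOrder w} =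
          ⋃ w ∈ {w : Circ | IsOfFinAddOrder w}, X ⁻¹' {w} := by
        ext ω; simp
      rw [h2]
      exact (measure_biUnion_null_iff torsion_countable).2 fun w _ => hat w
    rw [ae_iff]
    simp only [not_not]
    exact h1
  have hcomm' : ∀ a b : ℕ, ∀ ω, α^[a] (β^[b] ω) = β^[b] (α^[a] ω) := fun a b ω =>
    (hcomm.iterate_iterate a b) ω
  have hααc : ∀ a : ℕ, ∀ ω, α^[a] (α ω) = α (α^[a] ω) := fun a ω =>
    (Function.Commute.iterate_self α a) ω
  have hββc : ∀ a : ℕ, ∀ ω, β^[a] (β ω) = β (β^[a] ω) := fun a ω =>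
    (Function.Commute.iterate_self β a) ω
  have hβα : ∀ b : ℕ, ∀ ω, β^[b] (α ω) = α (β^[b] ω) := fun b ω => (hcomm' 1 b ω).symm
  have hαβ : ∀ a : ℕ, ∀ ω, α^[a] (β ω) = β (α^[a] ω) := fun a ω => hcomm' a 1 ω
  have hXi : ∀ i : ℕ, ∀ᵐ ω ∂P, X (α^[i] ω) = p ^ i • X ω := by
    intro c
    induction c with
    | zero => exact Eventually.of_forall fun ω => by simp
    | succ c ih =>
      filter_upwards [ih, (hα.iterate c).quasiMeasurePreserving.ae hXα] with ω h1 h2
      rw [Function.iterate_succ_apply', h2, h1, pow_succ', mul_smul]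
  have hXj : ∀ j : ℕ, ∀ᵐ ω ∂P, X (β^[j] ω) = q ^ j • X ω := by
    intro c
    induction c with
    | zero => exact Eventually.of_forall fun ω => by simp
    | succ c ih =>
      filter_upwards [ih, (hβ.iterate c).quasiMeasurePreserving.ae hXβ] with ω h1 h2
      rw [Function.iterate_succ_apply', h2, h1, pow_succ', mul_smul]
  have hXij : ∀ i j : ℕ, ∀ᵐ ω ∂P, X (α^[i] (β^[j] ω)) = (p ^ i * q ^ j) • X ω := by
    intro i j
    filter_upwards [hXj j, (hβ.iterate j).quasiMeasurePreserving.ae (hXi i)] with ω h1 h2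
    rw [h2, h1, mul_smul]
  intro hAU
  apply hA0
  -- it is enough that the conditional support is everything
  have key : ∀ (g1 g2 : Ω → Ω), MeasurePreserving g1 P P → MeasurePreserving g2 P P →
      (∀ᵐ ω ∂P, (g1 ω ∈ A ↔ g2 ω ∈ A)) →
      (∀ F : Ω → Set Circ, (∀ ω, IsClosed (F ω)) → Hit F → (∀ᵐ ω ∂P, X ω ∈ F ω) →
        (∀ (γ : Ω → Ω) (k : ℕ), MeasurePreserving γ P P →
          (∀ ω, γ (g1 ω) = g1 (γ ω)) → (∀ ω, γ (g2 ω) = g2 (γ ω)) →
          (∀ᵐ ω ∂P, X (γ ω) = k • X ω) → ∀ᵐ ω ∂P, ∀ x ∈ F ω, k • x ∈ F (γ ω)) →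
        (∀ᵐ ω ∂P, F (g1 ω) = F (g2 ω)) → ∀ᵐ ω ∂P, F ω = univ) → P A = 0 := by
    intro g1 g2 hg1 hg2 hg hFu
    set J : Set (Set Ω) := {B | MeasurableSet B ∧ ∀ᵐ ω ∂P, (g1 ω ∈ B ↔ g2 ω ∈ B)} with hJ
    obtain ⟨F, hF1, hF2, hF3, hF4, hF5, hF6⟩ := exists_cond_supp (P := P) (J := J) (X := X)
      (fun B hB => hB.1) ⟨MeasurableSet.univ, Eventually.of_forall fun ω => by simp⟩ (by
        intro B hB
        refine ⟨MeasurableSet.iInter fun n => (hB n).1, ?_⟩
        have h1 : ∀ᵐ ω ∂P, ∀ n, (g1 ω ∈ B n ↔ g2 ω ∈ B n) := by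
          rw [ae_all_iff]; exact fun n => (hB n).2
        filter_upwards [h1] with ω hω
        simp only [mem_iInter]
        exact forall_congr' hω)
    refine hF6 (hFu F hF1 hF2 hF3 ?_ (hF5 g1 g2 fun B hB => hB.2)) A ⟨hA.compl, ?_⟩ U hU hUn hAU
    · intro γ k hγ hc1 hc2 hXγ
      refine hF4 γ k hγ ?_ hXγ
      intro B hB
      refine ⟨hγ.measurable hB.1, ?_⟩
      filter_upwards [hγ.quasiMeasurePreserving.ae hB.2] with ω hω
      simp only [mem_preimage]
      rw [hc1, hc2]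
      exact hω
    · filter_upwards [hg] with ω hω
      rw [mem_compl_iff, mem_compl_iff, hω]
  have hfin : ∀ F : Ω → Set Circ, (∀ᵐ ω ∂P, X ω ∈ F ω) → (∀ᵐ ω ∂P, Trivial (F ω)) →
      ∀ᵐ ω ∂P, F ω = univ := by
    intro F hF1 hF2
    filter_upwards [hF1, hF2, htor] with ω h1 h2 h3
    rcases h2 with ⟨-, h2⟩ | h2
    · exact absurd (h2 _ h1) h3
    · exact h2
  rcases hinv with hinv | hinv
  · refine key (α^[i]) (β^[j]) (hα.iterate i) (hβ.iterate j) hinv ?_
    intro F hF1 hF2 hF3 hF4 hF5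
    refine hfin F hF3 ?_
    have e1 := hF4 (α^[i]) (p ^ i) (hα.iterate i) (fun ω => rfl)
      (fun ω => hcomm' i j ω) (hXi i)
    have e2 := hF4 (β^[j]) (q ^ j) (hβ.iterate j) (fun ω => (hcomm' i j ω).symm)
      (fun ω => rfl) (hXj j)
    have e3 := hF4 α p hα (fun ω => (hααc i ω).symm) (fun ω => (hβα j ω).symm) hXα
    have e4 := hF4 β q hβ (fun ω => (hαβ i ω).symm) (fun ω => (hββc j ω).symm) hXβ
    rcases Nat.eq_zero_or_pos i with hi | hi
    · have hj : 0 < j := by omega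
      refine fibre_ae (hq.trans (Nat.le_self_pow hj.ne' q)) hp
        (MulIndep.symm (by simpa using MulIndep.powpow h (i := 1) one_pos hj)) hα hF1 hF2 ?_ e3
      filter_upwards [e2, hF5] with ω h1 h2 x hx
      have h3 := h1 x hx
      rw [← h2, hi] at h3
      exact h3
    rcases Nat.eq_zero_or_pos j with hj | hj
    · refine fibre_ae (hp.trans (Nat.le_self_pow hi.ne' p)) hq
        (by simpa using MulIndep.powpow h hi (j := 1) one_pos) hβ hF1 hF2 ?_ e4
      filter_upwards [e1, hF5] with ω h1 h2 x hx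
      have h3 := h1 x hx
      rw [h2, hj] at h3
      exact h3
    · have := star_ae (hp.trans (Nat.le_self_pow hi.ne' p)) (hq.trans (Nat.le_self_pow hj.ne' q))
        (MulIndep.powpow h hi hj) (hα.iterate i) hF1 hF2 e1 (by
          filter_upwards [e2, hF5] with ω h1 h2 x hx
          rw [h2]
          exact h1 x hx)
      exact this
  · refine key (fun ω => α^[i] (β^[j] ω)) id ((hα.iterate i).comp (hβ.iterate j))
      (MeasurePreserving.id P) hinv ?_
    intro F hF1 hF2 hF3 hF4 hF5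
    refine hfin F hF3 ?_
    have e1 := hF4 (fun ω => α^[i] (β^[j] ω)) (p ^ i * q ^ j) ((hα.iterate i).comp (hβ.iterate j))
      (fun ω => rfl) (fun ω => rfl) (hXij i j)
    have e3 := hF4 α p hα (fun ω => by rw [hβα, hααc]) (fun ω => rfl) hXα
    have e4 := hF4 β q hβ (fun ω => by rw [hββc, hαβ]) (fun ω => rfl) hXβ
    rcases Nat.eq_zero_or_pos i with hi | hi
    · have hj : 0 < j := by omega
      refine fibre_ae (p := p ^ i * q ^ j) (hq := hp) ?_ ?_ hα hF1 hF2 ?_ e3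
      · rw [hi, pow_zero, one_mul]
        exact hq.trans (Nat.le_self_pow hj.ne' q)
      · rw [hi, pow_zero, one_mul]
        exact MulIndep.symm (by simpa using MulIndep.powpow h (i := 1) one_pos hj)
      · filter_upwards [e1, hF5] with ω h1 h2 x hx
        have h3 := h1 x hx
        rw [h2] at h3
        exact h3
    · have h2pq : 2 ≤ p ^ i * q ^ j := by
        calc 2 ≤ p := hp
          _ ≤ p ^ i := Nat.le_self_pow hi.ne' p
          _ ≤ p ^ i * q ^ j := Nat.le_mul_of_pos_right _ (by positivity)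
      refine fibre_ae h2pq hq (MulIndep.mul_left hq h hi j hp) hβ hF1 hF2 ?_ e4
      filter_upwards [e1, hF5] with ω h1 h2 x hx
      have h3 := h1 x hx
      rw [h2] at h3
      exact h3

end Pool.Agent.Helper28K1.RF
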