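import Mathlib
import Pool.Agent.Helper28K1.RF.Hull

/-!
Orbits of the elements of an action of the group of pairs of integers.
-/

set_option autoImplicit false

open MeasureTheory Filter Topology Set

namespace Pool.Agent.Helper28K1.RF

open Pool.Agent.H705R2 Pool.Agent.W765.Sta

variable {Ω : Type*} [MeasurableSpace Ω]

/-- a dense orbit criterion -/
lemma dense_of_null {P : Measure Ω} [IsProbabilityMeasure P] {γ : Ω → Ω}
    (hγ : MeasurePreserving γ P P) {X : Ω → Circ} (hX : Measurable X)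
    (h : ∀ A : Set Ω, MeasurableSet A → (∀ᵐ ω ∂P, (γ ω ∈ A ↔ ω ∈ A)) → P A ≠ 0 →
      ∀ U : Set Circ, IsOpen U → U.Nonempty → P (A ∩ X ⁻¹' U) ≠ 0) :
    ∀ᵐ ω ∂P, Dense (range fun n : ℕ => X (γ^[n] ω)) := by
  obtain ⟨b, hbc, hbe, hb⟩ := TopologicalSpace.exists_countable_basis Circ
  have hnull : ∀ V ∈ b, ∀ᵐ ω ∂P, ∃ n, X (γ^[n] ω) ∈ V := by
    intro V hV
    have hVo : IsOpen V := hb.isOpen hV
    have hVn : V.Nonempty := nonempty_iff_ne_empty.2 (fun h0 => hbe (h0 ▸ hV))
    set A : Set Ω := ⋂ n : ℕ, (fun ω => X (γ^[n] ω)) ⁻¹' Vᶜ with hA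
    have hAm : MeasurableSet A := MeasurableSet.iInter fun n =>
      (hX.comp (hγ.iterate n).measurable) hVo.measurableSet.compl
    have hsub : A ⊆ γ ⁻¹' A := by
      intro ω hω
      rw [mem_preimage]
      rw [hA, mem_iInter] at hω ⊢
      intro n
      have := hω (n + 1)
      rwa [mem_preimage, Function.iterate_succ_apply] at this
    have hinv : ∀ᵐ ω ∂P, (γ ω ∈ A ↔ ω ∈ A) := by
      have h1 : P (γ ⁻¹' A \ A) = 0 := by
        rw [measure_sdiff hsub hAm.nullMeasurableSet (measure_ne_top P A),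
          hγ.measure_preimage hAm.nullMeasurableSet, tsub_self]
      have h2 : ∀ᵐ ω ∂P, ω ∉ γ ⁻¹' A \ A := measure_eq_zero_iff_ae_notMem.1 h1
      filter_upwards [h2] with ω hω
      constructor
      · intro h3
        by_contra h4
        exact hω ⟨h3, h4⟩
      · intro h3
        exact hsub h3
    have hAU : P (A ∩ X ⁻¹' V) = 0 := by
      have : A ∩ X ⁻¹' V = ∅ := by
        rw [eq_empty_iff_forall_notMem]
        rintro ω ⟨h1, h2⟩
        rw [hA, mem_iInter] at h1
        exact h1 0 h2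
      rw [this, measure_empty]
    have hA0 : P A = 0 := by
      by_contra hne
      exact h A hAm hinv hne V hVo hVn hAU
    have h3 : ∀ᵐ ω ∂P, ω ∉ A := by
      rw [ae_iff]; simpa using hA0
    filter_upwards [h3] with ω hω
    rw [hA, mem_iInter] at hω
    push Not at hω
    obtain ⟨n, hn⟩ := hω
    refine ⟨n, ?_⟩
    simpa using hn
  have hall : ∀ᵐ ω ∂P, ∀ V ∈ b, ∃ n, X (γ^[n] ω) ∈ V := by
    rw [ae_ball_iff hbc]
    exact hnull
  filter_upwards [hall] with ω hω
  rw [hb.dense_iff]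
  intro V hV _
  obtain ⟨n, hn⟩ := hω V hV
  exact ⟨_, hn, n, rfl⟩

/-- **Every nontrivial element of the action has dense orbits.** -/
theorem dense_directions {p q : ℕ} (hp : 2 ≤ p) (hq : 2 ≤ q) (h : MulIndep p q) {P : Measure Ω}
    [IsProbabilityMeasure P] (α β : Ω ≃ᵐ Ω) (hα : MeasurePreserving α P P)
    (hβ : MeasurePreserving β P P) (hcomm : Function.Commute α β) {X : Ω → Circ}
    (hX : Measurable X) (hXα : ∀ᵐ ω ∂P, X (α ω) = p • X ω) (hXβ : ∀ᵐ ω ∂P, X (β ω) = q • X ω)
    (hat : ∀ x : Circ, P (X ⁻¹' {x}) = 0) {i j : ℕ} (hij : i ≠ 0 ∨ j ≠ 0) {α' β' : Ω → Ω}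
    (hα' : α' = α ∨ α' = α.symm) (hβ' : β' = β ∨ β' = β.symm) :
    ∀ᵐ ω ∂P, Dense (range fun n : ℕ => X ((α'^[i] ∘ β'^[j])^[n] ω)) := by
  have hαs : MeasurePreserving α.symm P P := hα.symm α
  have hβs : MeasurePreserving β.symm P P := hβ.symm β
  have hα'm : MeasurePreserving α' P P := by
    rcases hα' with rfl | rfl
    · exact hα
    · exact hαs
  have hβ'm : MeasurePreserving β' P P := by
    rcases hβ' with rfl | rfl
    · exact hβ
    · exact hβs
  have hγ : MeasurePreserving (α'^[i] ∘ β'^[j]) P P := (hα'm.iterate i).comp (hβ'm.iterate j)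
  refine dense_of_null hγ hX ?_
  intro A hAm hinv hA0 U hU hUn
  have hcomm' : ∀ a b : ℕ, ∀ ω, α^[a] (β^[b] ω) = β^[b] (α^[a] ω) := fun a b ω =>
    (hcomm.iterate_iterate a b) ω
  have hcα : ∀ a : ℕ, ∀ ω, α.symm^[a] (α^[a] ω) = ω := by
    intro a
    have : Function.LeftInverse (α.symm^[a]) (α^[a]) :=
      Function.LeftInverse.iterate (fun ω => by simp) a
    exact this
  have hcβ : ∀ a : ℕ, ∀ ω, β.symm^[a] (β^[a] ω) = ω := by
    intro a
    have : Function.LeftInverse (β.symm^[a]) (β^[a]) :=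
      Function.LeftInverse.iterate (fun ω => by simp) a
    exact this
  refine directions hp hq h hα hβ hcomm hXα hXβ hat hij hAm hA0 ?_ hU hUn
  rcases hα' with rfl | rfl
  · rcases hβ' with rfl | rfl
    · right
      exact hinv
    · left
      filter_upwards [(hβ.iterate j).quasiMeasurePreserving.ae hinv] with ω hω
      simp only [Function.comp_apply, hcβ] at hω
      exact hω
  · rcases hβ' with rfl | rfl
    · left
      filter_upwards [(hα.iterate i).quasiMeasurePreserving.ae hinv] with ω hω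
      simp only [Function.comp_apply] at hω
      rw [← hcomm', hcα] at hω
      exact hω.symm
    · right
      filter_upwards [((hα.iterate i).comp (hβ.iterate j)).quasiMeasurePreserving.ae hinv] with ω hω
      simp only [Function.comp_apply] at hω
      rw [hcomm', hcβ, hcα, ← hcomm'] at hω
      exact hω.symm

end Pool.Agent.Helper28K1.RF
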